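import Pool.Agent.Helper581.Sand.Meas

set_option autoImplicit false

namespace Pool.Agent.Helper581.Sand

open MeasureTheory ProbabilityTheory Filter Topology Function

variable {d : ℕ} {ν : Measure ℕ} [IsProbabilityMeasure ν]

lemma box_limit (hd : 1 ≤ d) (T : ℝ) (hT : 1 ≤ T) (ρ : ℝ) (hρ0 : 0 ≤ ρ) (hρ1 : ρ < 1) (c : ℝ)
    (hc : 0 < c) : ∃ L : ℕ, 1 ≤ L ∧ T ^ ((L + 2) ^ d - L ^ d) * ρ ^ (L ^ d) < c := by
  rcases hρ0.eq_or_lt with h0 | hpos
  · refine ⟨1, le_rfl, ?_⟩
    rw [← h0]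
    simpa using hc
  · have hb : Tendsto (fun L : ℕ => ((1 + 2 / (L : ℝ)) ^ d - 1) * Real.log T + Real.log ρ)
        atTop (𝓝 (Real.log ρ)) := by
      have h1 : Tendsto (fun L : ℕ => 2 / (L : ℝ)) atTop (𝓝 0) :=
        tendsto_const_div_atTop_nhds_zero_nat 2
      have h2 := (((h1.const_add 1).pow d).sub_const 1).mul_const (Real.log T)
      have h3 := h2.add_const (Real.log ρ)
      simpa using h3
    have hpow : Tendsto (fun L : ℕ => (L : ℝ) ^ d) atTop atTop :=
      (tendsto_pow_atTop (by omega)).comp tendsto_natCast_atTop_atTop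
    have hneg : Real.log ρ < 0 := Real.log_neg hpos hρ1
    have h4 := hpow.atTop_mul_neg hneg hb
    have h5 := Real.tendsto_exp_atBot.comp h4
    have h6 := (h5.eventually (gt_mem_nhds hc)).and (eventually_ge_atTop 1)
    obtain ⟨L, hL1, hL2⟩ := h6.exists
    refine ⟨L, hL2, ?_⟩
    have hLpos : (0 : ℝ) < L := by exact_mod_cast hL2
    have hTpos : 0 < T := by linarith
    have e1 : T ^ ((L + 2) ^ d - L ^ d) * ρ ^ (L ^ d)
        = Real.exp ((L : ℝ) ^ d * (((1 + 2 / (L : ℝ)) ^ d - 1) * Real.log T + Real.log ρ)) := by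
      have e2 : T ^ ((L + 2) ^ d - L ^ d)
          = Real.exp ((((L + 2) ^ d - L ^ d : ℕ) : ℝ) * Real.log T) := by
        rw [Real.exp_nat_mul, Real.exp_log hTpos]
      have e3 : ρ ^ (L ^ d) = Real.exp (((L ^ d : ℕ) : ℝ) * Real.log ρ) := by
        rw [Real.exp_nat_mul, Real.exp_log hpos]
      rw [e2, e3, ← Real.exp_add]
      congr 1
      have hle : L ^ d ≤ (L + 2) ^ d := Nat.pow_le_pow_left (by omega) d
      rw [Nat.cast_sub hle]
      push_cast
      have e4 : (L : ℝ) ^ d * (1 + 2 / (L : ℝ)) ^ d = ((L : ℝ) + 2) ^ d := by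
        rw [← mul_pow]
        congr 1
        field_simp
      have e5 : (L : ℝ) ^ d * (((1 + 2 / (L : ℝ)) ^ d - 1) * Real.log T + Real.log ρ)
          = ((L : ℝ) ^ d * (1 + 2 / (L : ℝ)) ^ d - (L : ℝ) ^ d) * Real.log T
            + (L : ℝ) ^ d * Real.log ρ := by ring
      rw [e5, e4]
    rw [e1]
    exact hL1

lemma exists_params (θ κ Ps : ℝ) (hfin : Real.exp (θ * κ) / (1 - Real.exp (-θ)) * Ps < 1) :
    ∃ Θ δ : ℝ, 0 < Θ ∧ 0 < δ ∧ Real.exp (θ * κ + Θ * δ) *
      (1 / (1 - Real.exp (-θ)) + Real.exp (-Θ) / (1 - Real.exp (-Θ))) * Ps < 1 := by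
  have h1 : Tendsto (fun Θ : ℝ => Real.exp (-Θ)) atTop (𝓝 0) :=
    Real.tendsto_exp_neg_atTop_nhds_zero
  have h2 : Tendsto (fun Θ : ℝ => Real.exp (θ * κ) *
      (1 / (1 - Real.exp (-θ)) + Real.exp (-Θ) / (1 - Real.exp (-Θ))) * Ps) atTop
      (𝓝 (Real.exp (θ * κ) * (1 / (1 - Real.exp (-θ)) + 0 / (1 - 0)) * Ps)) := by
    apply Tendsto.mul_const
    apply Tendsto.const_mul
    apply Tendsto.const_add
    exact h1.div (h1.const_sub 1) (by norm_num)
  have h3 : Real.exp (θ * κ) * (1 / (1 - Real.exp (-θ)) + 0 / (1 - 0)) * Ps < 1 := by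
    rw [zero_div, add_zero, mul_one_div]
    exact hfin
  have h4 := (h2.eventually (gt_mem_nhds h3)).and (eventually_gt_atTop 0)
  obtain ⟨Θ, hΘ1, hΘ0⟩ := h4.exists
  set f0 : ℝ := Real.exp (θ * κ) *
      (1 / (1 - Real.exp (-θ)) + Real.exp (-Θ) / (1 - Real.exp (-Θ))) * Ps with hf0
  have h5 : Tendsto (fun δ : ℝ => Real.exp (Θ * δ) * f0) (𝓝[>] 0) (𝓝 (Real.exp (Θ * 0) * f0)) := by
    apply Tendsto.mono_left _ nhdsWithin_le_nhds
    exact (Continuous.tendsto (by fun_prop) 0)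
  have h6 : Real.exp (Θ * 0) * f0 < 1 := by simpa using hΘ1
  have h7 := (h5.eventually (gt_mem_nhds h6)).and self_mem_nhdsWithin
  obtain ⟨δ, hδ1, hδ0⟩ := h7.exists
  refine ⟨Θ, δ, hΘ0, hδ0, ?_⟩
  rw [Real.exp_add]
  calc _ = Real.exp (Θ * δ) * f0 := by rw [hf0]; ring
    _ < 1 := hδ1

/-- the box `[0, L)^d` and the box `[-1, L + 1)^d` -/
noncomputable def box (d : ℕ) (a b : ℤ) : Finset (Fin d → ℤ) := Fintype.piFinset fun _ => Finset.Ico a b

lemma box_card (a b : ℤ) : (box d a b).card = (b - a).toNat ^ d := by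
  unfold box
  simp [Fintype.card_piFinset]

lemma mean_neg (hint : Integrable (fun n : ℕ => (n : ℝ)) ν) (hd : 1 ≤ d) (t : ℕ) :
    ∫ ω in NP d, ((negp (2 * d - 1) (run (cf ω) t 0) : ℤ) : ℝ) ∂(fld d ν)
      = ∫ ω in NP d, ((posp (2 * d - 1) (run (cf ω) t 0) : ℤ) : ℝ) ∂(fld d ν)
        + ((2 * d - 1 : ℝ) - ∫ n, (n : ℝ) ∂ν) * (fld d ν).real (NP d) := by
  have hR : Integrable (fun ω : (Fin d → ℤ) → ℕ => ((run (cf ω) t 0 : ℤ) : ℝ))
      ((fld d ν).restrict (NP d)) := (int_run hint t 0).restrict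
  have hP : Integrable (fun ω : (Fin d → ℤ) → ℕ =>
      ((posp (2 * d - 1) (run (cf ω) t 0) : ℤ) : ℝ)) ((fld d ν).restrict (NP d)) := by
    refine ((hR.norm).add (integrable_const (2 * (d : ℝ) + 1))).mono'
      ((Measurable.of_discrete (f := fun z : ℤ => ((posp (2 * d - 1) z : ℤ) : ℝ))).comp
      (meas_run t 0)).aestronglyMeasurable (Eventually.of_forall fun ω => ?_)
    have h1 : 0 ≤ posp (2 * d - 1) (run (cf ω) t 0) := le_max_left _ _
    rw [Real.norm_eq_abs, abs_of_nonneg (by exact_mod_cast h1)]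
    have h2 : posp (2 * d - 1) (run (cf ω) t 0) ≤ |run (cf ω) t 0| + (2 * d + 1) := by
      have := le_abs_self (run (cf ω) t 0)
      have := abs_nonneg (run (cf ω) t 0)
      unfold posp
      omega
    have h3 : ((posp (2 * d - 1) (run (cf ω) t 0) : ℤ) : ℝ)
        ≤ ((|run (cf ω) t 0| + (2 * d + 1) : ℤ) : ℝ) := by exact_mod_cast h2
    push_cast at h3
    exact h3
  have h1 : ∀ ω : (Fin d → ℤ) → ℕ, ((negp (2 * d - 1) (run (cf ω) t 0) : ℤ) : ℝ)
      = ((posp (2 * d - 1) (run (cf ω) t 0) : ℤ) : ℝ)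
        + ((2 * d - 1 : ℝ) - ((run (cf ω) t 0 : ℤ) : ℝ)) := by
    intro ω
    have h2 : negp (2 * d - 1) (run (cf ω) t 0)
        = posp (2 * d - 1) (run (cf ω) t 0) + (2 * d - 1 - run (cf ω) t 0) := by
      unfold negp posp
      omega
    rw [h2]
    push_cast
    ring
  simp_rw [h1]
  have hC : Integrable (fun ω : (Fin d → ℤ) → ℕ =>
      ((2 * d - 1 : ℝ) - ((run (cf ω) t 0 : ℤ) : ℝ))) ((fld d ν).restrict (NP d)) :=
    (integrable_const _).sub hR
  rw [integral_add hP hC, integral_sub (integrable_const _) hR, mean_run hint, mean_zero hint hd,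
    setIntegral_const, smul_eq_mul]
  ring

lemma int_posp (hint : Integrable (fun n : ℕ => (n : ℝ)) ν) (t : ℕ) (x : Fin d → ℤ) :
    Integrable (fun ω : (Fin d → ℤ) → ℕ =>
      ((posp (2 * d - 1) (run (cf ω) t x) : ℤ) : ℝ)) (fld d ν) := by
  refine (((int_run hint t x).norm).add (integrable_const (2 * (d : ℝ) + 1))).mono'
    ((Measurable.of_discrete (f := fun z : ℤ => ((posp (2 * d - 1) z : ℤ) : ℝ))).comp
    (meas_run t x)).aestronglyMeasurable (Eventually.of_forall fun ω => ?_)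
  have h1 : 0 ≤ posp (2 * d - 1) (run (cf ω) t x) := le_max_left _ _
  rw [Real.norm_eq_abs, abs_of_nonneg (by exact_mod_cast h1)]
  have h2 : posp (2 * d - 1) (run (cf ω) t x) ≤ |run (cf ω) t x| + (2 * d + 1) := by
    have := le_abs_self (run (cf ω) t x)
    have := abs_nonneg (run (cf ω) t x)
    unfold posp
    omega
  have h3 : ((posp (2 * d - 1) (run (cf ω) t x) : ℤ) : ℝ)
      ≤ ((|run (cf ω) t x| + (2 * d + 1) : ℤ) : ℝ) := by exact_mod_cast h2
  push_cast at h3
  exact h3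

lemma int_negp (hint : Integrable (fun n : ℕ => (n : ℝ)) ν) (t : ℕ) (x : Fin d → ℤ) :
    Integrable (fun ω : (Fin d → ℤ) → ℕ =>
      ((negp (2 * d - 1) (run (cf ω) t x) : ℤ) : ℝ)) (fld d ν) := by
  refine (((int_run hint t x).norm).add (integrable_const (2 * (d : ℝ) + 1))).mono'
    ((Measurable.of_discrete (f := fun z : ℤ => ((negp (2 * d - 1) z : ℤ) : ℝ))).comp
    (meas_run t x)).aestronglyMeasurable (Eventually.of_forall fun ω => ?_)
  have h1 : 0 ≤ negp (2 * d - 1) (run (cf ω) t x) := le_max_left _ _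
  rw [Real.norm_eq_abs, abs_of_nonneg (by exact_mod_cast h1)]
  have h2 : negp (2 * d - 1) (run (cf ω) t x) ≤ |run (cf ω) t x| + (2 * d + 1) := by
    have := neg_abs_le (run (cf ω) t x)
    have := abs_nonneg (run (cf ω) t x)
    unfold negp
    omega
  have h3 : ((negp (2 * d - 1) (run (cf ω) t x) : ℤ) : ℝ)
      ≤ ((|run (cf ω) t x| + (2 * d + 1) : ℤ) : ℝ) := by exact_mod_cast h2
  push_cast at h3
  exact h3

/-- Markov's inequality on the event of no percolation. -/
lemma markov_NP (f : ℤ → ℝ) (hf0 : ∀ z, 0 ≤ f z) (t : ℕ) (B : Finset (Fin d → ℤ))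
    (hf : ∀ x : Fin d → ℤ, Integrable (fun ω : (Fin d → ℤ) → ℕ => f (run (cf ω) t x)) (fld d ν))
    (K : ℝ) :
    K * (fld d ν).real ({ω | K < ∑ x ∈ B, f (run (cf ω) t x)} ∩ NP d)
      ≤ B.card * ∫ ω in NP d, f (run (cf ω) t 0) ∂(fld d ν) ∨ K < 0 := by
  by_cases hK : K < 0
  · exact Or.inr hK
  left
  push Not at hK
  have h1 := mul_meas_ge_le_integral_of_nonneg (μ := (fld d ν).restrict (NP d))
    (f := fun ω : (Fin d → ℤ) → ℕ => ∑ x ∈ B, f (run (cf ω) t x))
    (Eventually.of_forall fun ω => Finset.sum_nonneg fun _ _ => hf0 _)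
    (integrable_finset_sum _ fun x _ => (hf x).restrict) K
  rw [integral_finset_sum _ fun x _ => (hf x).restrict] at h1
  simp_rw [int_run_shift t _ f] at h1
  rw [Finset.sum_const, nsmul_eq_mul] at h1
  refine le_trans ?_ h1
  apply mul_le_mul_of_nonneg_left _ hK
  rw [measureReal_def, measureReal_def, Measure.restrict_apply' meas_NP]
  apply ENNReal.toReal_mono (measure_ne_top _ _)
  apply measure_mono
  intro ω hω
  have h3 : K < ∑ x ∈ B, f (run (cf ω) t x) := hω.1
  exact ⟨h3.le, hω.2⟩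

/-- The general criterion. -/
theorem core (hd : 1 ≤ d) (hint : Integrable (fun n : ℕ => (n : ℝ)) ν) (lab : ℕ → ℕ)
    (M : ℕ → ℝ) (Ps : ℝ) (hlab : ∀ k k', lab k = lab k' → (k : ℤ) - k' ≤ (d : ℤ) - 1)
    (hM : ∀ k, ν.real {k} ≤ M (lab k)) (hM0 : ∀ j, 0 ≤ M j)
    (hPs : ∀ J, ∑ j ∈ Finset.range J, M j ≤ Ps) (κ θ : ℝ) (hκ : 0 < κ)
    (hκ2 : (2 * d - 1 : ℝ) - ∫ n, (n : ℝ) ∂ν < κ) (hθ : 0 < θ)
    (hfin : Real.exp (θ * κ) / (1 - Real.exp (-θ)) * Ps < 1) :
    fld d ν {ω | Percolates (cf ω)} = 1 := by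
  set μ := fld d ν with hμ
  set g : ℝ := (2 * d - 1 : ℝ) - ∫ n, (n : ℝ) ∂ν with hg
  set q : ℝ := μ.real (NP d) with hq
  by_contra hcon
  have hqpos : 0 < q := by
    rw [hq, measureReal_def]
    apply ENNReal.toReal_pos _ (measure_ne_top _ _)
    intro h0
    apply hcon
    have h1 : (NP d)ᶜ = {ω : (Fin d → ℤ) → ℕ | Percolates (cf ω)} := by
      ext ω
      simp [NP]
    rw [← h1]
    exact (prob_compl_eq_one_iff meas_NP).2 h0
  obtain ⟨Θ, δ, hΘ, hδ, hρ⟩ := exists_params θ κ Ps hfin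
  set c1 : ℝ := q * (κ - g) / κ with hc1
  have hc1pos : 0 < c1 := by
    rw [hc1]
    apply div_pos _ hκ
    apply mul_pos hqpos
    linarith
  set η : ℝ := c1 / (2 * (1 / κ + 1 / δ)) with hη
  have hηpos : 0 < η := by positivity
  obtain ⟨t, ht⟩ := ((pos_tendsto (d := d) hint).eventually (gt_mem_nhds hηpos)).exists
  have hneg := mean_neg hint hd t
  -- lower bound for the probability of good configurations
  have hlow : ∀ B : Finset (Fin d → ℤ), B.Nonempty →
      c1 / 2 ≤ μ.real (Good B t (κ * B.card) (δ * B.card)) := by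
    intro B hB
    have hn : (0 : ℝ) < B.card := by exact_mod_cast hB.card_pos
    have h1 := markov_NP (ν := ν) (fun z => ((negp (2 * d - 1) z : ℤ) : ℝ))
      (fun z => by exact_mod_cast le_max_left 0 _) t B (int_negp hint t) (κ * B.card)
    have h2 := markov_NP (ν := ν) (fun z => ((posp (2 * d - 1) z : ℤ) : ℝ))
      (fun z => by exact_mod_cast le_max_left 0 _) t B (int_posp hint t) (δ * B.card)
    rcases h1 with h1 | h1
    swap
    · exfalso
      have : 0 < κ * B.card := by positivity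
      linarith
    rcases h2 with h2 | h2
    swap
    · exfalso
      have : 0 < δ * B.card := by positivity
      linarith
    set A1 : Set ((Fin d → ℤ) → ℕ) :=
      {ω | κ * B.card < ∑ x ∈ B, ((negp (2 * d - 1) (run (cf ω) t x) : ℤ) : ℝ)} ∩ NP d with hA1
    set A2 : Set ((Fin d → ℤ) → ℕ) :=
      {ω | δ * B.card < ∑ x ∈ B, ((posp (2 * d - 1) (run (cf ω) t x) : ℤ) : ℝ)} ∩ NP d with hA2
    have h3 : μ.real A1 ≤ (g * q + η) / κ := by
      rw [le_div_iff₀ hκ]
      rw [hneg] at h1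
      have h4 : κ * B.card * μ.real A1 ≤ B.card * (η + g * q) := by
        refine h1.trans (mul_le_mul_of_nonneg_left ?_ hn.le)
        linarith
      have h5 : (B.card : ℝ) * (μ.real A1 * κ) ≤ B.card * (g * q + η) := by linarith
      exact le_of_mul_le_mul_left h5 hn
    have h4 : μ.real A2 ≤ η / δ := by
      rw [le_div_iff₀ hδ]
      have h4 : δ * B.card * μ.real A2 ≤ B.card * η := by
        refine h2.trans (mul_le_mul_of_nonneg_left ht.le hn.le)
      have h5 : (B.card : ℝ) * (μ.real A2 * δ) ≤ B.card * η := by linarith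
      exact le_of_mul_le_mul_left h5 hn
    have h5 : NP d ⊆ Good B t (κ * B.card) (δ * B.card) ∪ (A1 ∪ A2) := by
      intro ω hω
      by_cases ha : κ * B.card < ∑ x ∈ B, ((negp (2 * d - 1) (run (cf ω) t x) : ℤ) : ℝ)
      · exact Or.inr (Or.inl ⟨ha, hω⟩)
      by_cases hb : δ * B.card < ∑ x ∈ B, ((posp (2 * d - 1) (run (cf ω) t x) : ℤ) : ℝ)
      · exact Or.inr (Or.inr ⟨hb, hω⟩)
      left
      push Not at ha hb
      constructor
      · push_cast
        exact ha
      · push_cast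
        exact hb
    have h6 : q ≤ μ.real (Good B t (κ * B.card) (δ * B.card)) + (μ.real A1 + μ.real A2) := by
      rw [hq]
      calc μ.real (NP d) ≤ μ.real (Good B t (κ * B.card) (δ * B.card) ∪ (A1 ∪ A2)) :=
            measureReal_mono h5 (measure_ne_top _ _)
        _ ≤ μ.real (Good B t (κ * B.card) (δ * B.card)) + μ.real (A1 ∪ A2) :=
            measureReal_union_le _ _
        _ ≤ _ := by
            have := measureReal_union_le (μ := μ) A1 A2
            linarith
    have h7 : c1 = q - g * q / κ := by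
      rw [hc1]
      field_simp
    have h8 : η * (1 / κ + 1 / δ) = c1 / 2 := by
      rw [hη]
      have : (1 / κ + 1 / δ) ≠ 0 := by positivity
      field_simp
    have h9 : (g * q + η) / κ + η / δ = g * q / κ + η * (1 / κ + 1 / δ) := by
      field_simp
      ring
    linarith
  -- the counting bound
  set ρ : ℝ := Real.exp (θ * κ + Θ * δ) *
      (1 / (1 - Real.exp (-θ)) + Real.exp (-Θ) / (1 - Real.exp (-Θ))) * Ps with hρdef
  have hPs0 : 0 ≤ Ps := by simpa using hPs 0
  have hρ0 : 0 ≤ ρ := by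
    have h1 : Real.exp (-θ) < 1 := by rw [Real.exp_lt_one_iff]; linarith
    have h2 : Real.exp (-Θ) < 1 := by rw [Real.exp_lt_one_iff]; linarith
    have h3 := Real.exp_pos (-Θ)
    have h4 : 0 < 1 - Real.exp (-θ) := by linarith
    have h5 : 0 < 1 - Real.exp (-Θ) := by linarith
    rw [hρdef]
    positivity
  obtain ⟨L, hL1, hL⟩ := box_limit hd ((t : ℝ) + 1) (by linarith [Nat.cast_nonneg (α := ℝ) t]) ρ
    hρ0 hρ (c1 / 2) (by positivity)
  have hcardB : (box d 0 L).card = L ^ d := by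
    rw [box_card]
    simp
  have hcardB' : (box d (-1) (L + 1)).card = (L + 2) ^ d := by
    rw [box_card]
    have : ((L : ℤ) + 1 - -1).toNat = L + 2 := by omega
    rw [this]
  have hup := count_bound hd ν lab M Ps hlab hM hM0 hPs (box d 0 L) (box d (-1) (L + 1))
    (by
      intro x hx
      unfold box at *
      rw [Fintype.mem_piFinset] at *
      intro i
      have := hx i
      rw [Finset.mem_Ico] at *
      omega)
    (by
      intro x hx i
      unfold box at *
      simp only [Fintype.mem_piFinset, Finset.mem_Ico] at *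
      constructor
      · intro j
        have h1 := hx j
        have h2 : (x + (Pi.single i 1 : Fin d → ℤ)) j = x j + (Pi.single i 1 : Fin d → ℤ) j := rfl
        have h3 : (Pi.single i 1 : Fin d → ℤ) j = 0 ∨ (Pi.single i 1 : Fin d → ℤ) j = 1 := by
          by_cases hij : j = i
          · right; subst hij; simp
          · left; simp [hij]
        rw [h2]
        omega
      · intro j
        have h1 := hx j
        have h2 : (x - (Pi.single i 1 : Fin d → ℤ)) j = x j - (Pi.single i 1 : Fin d → ℤ) j := rfl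
        have h3 : (Pi.single i 1 : Fin d → ℤ) j = 0 ∨ (Pi.single i 1 : Fin d → ℤ) j = 1 := by
          by_cases hij : j = i
          · right; subst hij; simp
          · left; simp [hij]
        rw [h2]
        omega)
    t θ Θ (κ * (box d 0 L).card) (δ * (box d 0 L).card) hθ hΘ
  have hlow' := hlow (box d 0 L) (by
    rw [← Finset.card_pos, hcardB]
    exact Nat.pow_pos (by omega))
  have h10 : ((t : ℝ) + 1) ^ ((box d (-1) (L + 1)).card - (box d 0 L).card) *
      Real.exp (θ * (κ * (box d 0 L).card) + Θ * (δ * (box d 0 L).card)) *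
      (1 / (1 - Real.exp (-θ)) + Real.exp (-Θ) / (1 - Real.exp (-Θ))) ^ (box d 0 L).card *
      Ps ^ (box d 0 L).card = ((t : ℝ) + 1) ^ ((L + 2) ^ d - L ^ d) * ρ ^ (L ^ d) := by
    rw [hcardB, hcardB', hρdef, mul_pow, mul_pow, ← Real.exp_nat_mul]
    have h11 : θ * (κ * ((L ^ d : ℕ) : ℝ)) + Θ * (δ * ((L ^ d : ℕ) : ℝ))
        = ((L ^ d : ℕ) : ℝ) * (θ * κ + Θ * δ) := by ring
    rw [h11]
    ring
  rw [h10] at hup
  linarith

end Pool.Agent.Helper581.Sand
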