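import Pool.Agent.Helper581.Sand.Det

set_option autoImplicit false

namespace Pool.Agent.Helper581.Sand

open MeasureTheory ProbabilityTheory

variable {d : ℕ}

/-- the i.i.d. field with one-site law `ν` -/
noncomputable def fld (d : ℕ) (ν : Measure ℕ) : Measure ((Fin d → ℤ) → ℕ) :=
  Measure.infinitePi fun _ => ν

/-- the integer configuration -/
def cf (ω : (Fin d → ℤ) → ℕ) : (Fin d → ℤ) → ℤ := fun x => (ω x : ℤ)

/-- deficit and excess with respect to `m` -/
def negp (m z : ℤ) : ℤ := max 0 (m - z)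
def posp (m z : ℤ) : ℤ := max 0 (z - m)

lemma unique_of_data (hd : 1 ≤ d) (B B' : Finset (Fin d → ℤ))
    (hnb : ∀ x ∈ B, ∀ i : Fin d, x + Pi.single i 1 ∈ B' ∧ x - Pi.single i 1 ∈ B')
    {a a' : (Fin d → ℤ) → ℤ} (t : ℕ) (hrun : ∀ x ∈ B, run a t x = run a' t x)
    (hod : ∀ y ∈ B' \ B, od a t y = od a' t y) (hwin : ∀ x ∈ B, |a x - a' x| ≤ (d : ℤ) - 1) :
    ∀ x ∈ B, a x = a' x := by
  classical
  set w : (Fin d → ℤ) → ℤ := fun y => if y ∈ B then od a t y - od a' t y else 0 with hw
  have hwB' : ∀ y ∈ B', w y = od a t y - od a' t y := by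
    intro y hy
    by_cases h : y ∈ B
    · simp [hw, h]
    · have := hod y (by simp [hy, h])
      simp [hw, h, this]
  have hlap : ∀ x ∈ B, lap w x = a' x - a x := by
    intro x hx
    have h1 : lap w x = lap (fun y => od a t y - od a' t y) x := by
      unfold lap
      have h2 : w x = od a t x - od a' t x := by simp [hw, hx]
      rw [h2]
      congr 1
      apply Finset.sum_congr rfl
      intro i _
      rw [hwB' _ (hnb x hx i).1, hwB' _ (hnb x hx i).2]
    rw [h1, lap_sub]
    have h3 := run_eq a t x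
    have h4 := run_eq a' t x
    have h5 := hrun x hx
    omega
  have hzero := max_principle B w (fun x hx => by simp [hw, hx]) hd (fun x hx => by
    rw [hlap x hx, abs_sub_comm]
    exact hwin x hx)
  intro x hx
  have h1 := hlap x hx
  have h2 : lap w x = 0 := by
    unfold lap
    simp [hzero]
  omega

lemma geom_le (θ : ℝ) (hθ : 0 < θ) (N : ℕ) :
    ∑ k ∈ Finset.range N, Real.exp (-(θ * k)) ≤ 1 / (1 - Real.exp (-θ)) := by
  have h1 : Real.exp (-θ) < 1 := by
    rw [Real.exp_lt_one_iff]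
    linarith
  have h2 : ∀ k : ℕ, Real.exp (-(θ * k)) = Real.exp (-θ) ^ k := by
    intro k
    rw [← Real.exp_nat_mul]
    congr 1
    ring
  simp_rw [h2]
  have h3 := (summable_geometric_of_lt_one (Real.exp_pos _).le h1).sum_le_tsum (Finset.range N)
    (fun k _ => by positivity)
  rw [tsum_geometric_of_lt_one (Real.exp_pos _).le h1] at h3
  rw [one_div]
  exact h3

lemma weight_sum_le (m a b : ℤ) (θ Θ : ℝ) (hθ : 0 < θ) (hΘ : 0 < Θ) :
    ∑ z ∈ Finset.Icc a b, Real.exp (-(θ * (negp m z : ℤ)) - Θ * (posp m z : ℤ))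
      ≤ 1 / (1 - Real.exp (-θ)) + Real.exp (-Θ) / (1 - Real.exp (-Θ)) := by
  classical
  set f : ℤ → ℝ := fun z => Real.exp (-(θ * (negp m z : ℤ)) - Θ * (posp m z : ℤ)) with hf
  set N : ℕ := (m - a).toNat + (b - m).toNat + 1 with hN
  set A1 : Finset ℤ := (Finset.range N).image (fun k : ℕ => m - k)
  set A2 : Finset ℤ := (Finset.range N).image (fun k : ℕ => m + 1 + k)
  have hsub : Finset.Icc a b ⊆ A1 ∪ A2 := by
    intro z hz
    rw [Finset.mem_Icc] at hz
    rw [Finset.mem_union]
    by_cases h : z ≤ m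
    · left
      rw [Finset.mem_image]
      exact ⟨(m - z).toNat, by rw [Finset.mem_range]; omega, by omega⟩
    · right
      rw [Finset.mem_image]
      exact ⟨(z - m - 1).toNat, by rw [Finset.mem_range]; omega, by omega⟩
  have hdisj : Disjoint A1 A2 := by
    rw [Finset.disjoint_left]
    intro z h1 h2
    rw [Finset.mem_image] at h1 h2
    obtain ⟨k, _, hk⟩ := h1
    obtain ⟨l, _, hl⟩ := h2
    omega
  calc ∑ z ∈ Finset.Icc a b, f z ≤ ∑ z ∈ A1 ∪ A2, f z :=
        Finset.sum_le_sum_of_subset_of_nonneg hsub fun _ _ _ => (Real.exp_pos _).le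
    _ = ∑ z ∈ A1, f z + ∑ z ∈ A2, f z := Finset.sum_union hdisj
    _ = ∑ k ∈ Finset.range N, f (m - k) + ∑ k ∈ Finset.range N, f (m + 1 + k) := by
        rw [Finset.sum_image (by intro k _ l _ h; simp only at h; omega),
          Finset.sum_image (by intro k _ l _ h; simp only at h; omega)]
    _ = ∑ k ∈ Finset.range N, Real.exp (-(θ * k))
        + ∑ k ∈ Finset.range N, Real.exp (-Θ) * Real.exp (-(Θ * k)) := by
        congr 1
        · apply Finset.sum_congr rfl
          intro k _
          have h1 : negp m (m - k) = k := by unfold negp; omega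
          have h2 : posp m (m - k) = 0 := by unfold posp; omega
          simp only [hf, h1, h2]
          push_cast
          congr 1
          ring
        · apply Finset.sum_congr rfl
          intro k _
          have h1 : negp m (m + 1 + k) = 0 := by unfold negp; omega
          have h2 : posp m (m + 1 + k) = 1 + k := by unfold posp; omega
          simp only [hf, h1, h2]
          rw [← Real.exp_add]
          push_cast
          congr 1
          ring
    _ ≤ 1 / (1 - Real.exp (-θ)) + Real.exp (-Θ) * (1 / (1 - Real.exp (-Θ))) := by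
        rw [← Finset.mul_sum]
        exact add_le_add (geom_le θ hθ N)
          (mul_le_mul_of_nonneg_left (geom_le Θ hΘ N) (Real.exp_pos _).le)
    _ = _ := by ring

/-- The set of configurations which at time `t` have small total deficit and excess on `B`. -/
def Good (B : Finset (Fin d → ℤ)) (t : ℕ) (K1 K2 : ℝ) : Set ((Fin d → ℤ) → ℕ) :=
  {ω | ((∑ x ∈ B, negp (2 * d - 1) (run (cf ω) t x) : ℤ) : ℝ) ≤ K1 ∧
    ((∑ x ∈ B, posp (2 * d - 1) (run (cf ω) t x) : ℤ) : ℝ) ≤ K2}

lemma count_bound (hd : 1 ≤ d) (ν : Measure ℕ) [IsProbabilityMeasure ν] (lab : ℕ → ℕ)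
    (M : ℕ → ℝ) (Ps : ℝ) (hlab : ∀ k k', lab k = lab k' → (k : ℤ) - k' ≤ (d : ℤ) - 1)
    (hM : ∀ k, ν.real {k} ≤ M (lab k)) (hM0 : ∀ j, 0 ≤ M j)
    (hPs : ∀ J, ∑ j ∈ Finset.range J, M j ≤ Ps) (B B' : Finset (Fin d → ℤ)) (hBB' : B ⊆ B')
    (hnb : ∀ x ∈ B, ∀ i : Fin d, x + Pi.single i 1 ∈ B' ∧ x - Pi.single i 1 ∈ B')
    (t : ℕ) (θ Θ K1 K2 : ℝ) (hθ : 0 < θ) (hΘ : 0 < Θ) :
    (fld d ν).real (Good B t K1 K2) ≤ ((t : ℝ) + 1) ^ (B'.card - B.card) *
      Real.exp (θ * K1 + Θ * K2) *
      (1 / (1 - Real.exp (-θ)) + Real.exp (-Θ) / (1 - Real.exp (-Θ))) ^ B.card *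
      Ps ^ B.card := by
  classical
  set m : ℤ := 2 * d - 1 with hm
  -- the bound for the values
  set R : ℤ := ⌊K1⌋ with hR
  set R' : ℤ := ⌊K2⌋ with hR'
  set Ξ : Finset (B → ℤ) := (Fintype.piFinset fun _ : B => Finset.Icc (m - R) (m + R')).filter
    fun ξ => ((∑ x : B, negp m (ξ x) : ℤ) : ℝ) ≤ K1 ∧ ((∑ x : B, posp m (ξ x) : ℤ) : ℝ) ≤ K2
    with hΞ
  set Bt : Finset ((B' \ B : Finset (Fin d → ℤ)) → ℤ) :=
    Fintype.piFinset fun _ : (B' \ B : Finset (Fin d → ℤ)) => Finset.Icc 0 (t : ℤ) with hBt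
  set Kmax : ℕ := (m + R' + 2 * d * t).toNat with hKmax
  obtain ⟨J, hJ⟩ : ∃ J : ℕ, ∀ k ≤ Kmax, lab k < J :=
    ⟨(Finset.range (Kmax + 1)).sup lab + 1, fun k hk => Nat.lt_succ_of_le
      (Finset.le_sup (f := lab) (by rw [Finset.mem_range]; omega))⟩
  set Lb : Finset (B → ℕ) := Fintype.piFinset fun _ : B => Finset.range J with hLb
  let C : (B → ℤ) × ((B' \ B : Finset (Fin d → ℤ)) → ℤ) × (B → ℕ) →
      Set ((Fin d → ℤ) → ℕ) := fun p =>
    {ω | (∀ x : B, run (cf ω) t x = p.1 x) ∧ (∀ y : (B' \ B : Finset (Fin d → ℤ)),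
      od (cf ω) t y = p.2.1 y) ∧ ∀ x : B, lab (ω x) = p.2.2 x}
  have hC : ∀ p, (fld d ν).real (C p) ≤ ∏ x : B, M (p.2.2 x) := by
    intro p
    by_cases hne : (C p).Nonempty
    · obtain ⟨ω0, hω0⟩ := hne
      have hsub : C p ⊆ Set.pi (B : Set (Fin d → ℤ)) fun x => {ω0 x} := by
        intro ω hω x hx
        have hx' : x ∈ B := hx
        have h1 := unique_of_data hd B B' hnb (a := cf ω) (a' := cf ω0) t
          (fun y hy => by rw [hω.1 ⟨y, hy⟩, hω0.1 ⟨y, hy⟩])
          (fun y hy => by rw [hω.2.1 ⟨y, hy⟩, hω0.2.1 ⟨y, hy⟩])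
          (fun y hy => by
            have h2 : lab (ω y) = lab (ω0 y) := by
              rw [hω.2.2 ⟨y, hy⟩, hω0.2.2 ⟨y, hy⟩]
            rw [abs_le]
            have h3 := hlab _ _ h2
            have h4 := hlab _ _ h2.symm
            unfold cf
            omega) x hx'
        have h5 : (ω x : ℤ) = ω0 x := h1
        show ω x = ω0 x
        exact_mod_cast h5
      calc (fld d ν).real (C p)
          ≤ (fld d ν).real (Set.pi (B : Set (Fin d → ℤ)) fun x => {ω0 x}) := by
            haveI : IsProbabilityMeasure (fld d ν) := by unfold fld; infer_instance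
            exact measureReal_mono hsub
        _ = ∏ x ∈ B, ν.real {ω0 x} := by
            unfold fld
            rw [measureReal_def, Measure.infinitePi_pi _ (fun _ _ => MeasurableSet.of_discrete),
              ENNReal.toReal_prod]
            rfl
        _ = ∏ x : B, ν.real {ω0 x} := (Finset.prod_coe_sort B fun x => ν.real {ω0 x}).symm
        _ ≤ ∏ x : B, M (p.2.2 x) := by
            apply Finset.prod_le_prod
            · intro x _
              exact measureReal_nonneg
            · intro x _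
              rw [← hω0.2.2 x]
              exact hM _
    · rw [Set.not_nonempty_iff_eq_empty] at hne
      rw [hne, measureReal_empty]
      exact Finset.prod_nonneg fun x _ => hM0 _
  have hcover : Good B t K1 K2 ⊆ ⋃ p ∈ Ξ ×ˢ (Bt ×ˢ Lb), C p := by
    intro ω hω
    have hω1 : ((∑ x ∈ B, negp m (run (cf ω) t x) : ℤ) : ℝ) ≤ K1 := hω.1
    have hω2 : ((∑ x ∈ B, posp m (run (cf ω) t x) : ℤ) : ℝ) ≤ K2 := hω.2
    have hneg : ∀ x ∈ B, negp m (run (cf ω) t x) ≤ R := by
      intro x hx
      rw [hR, Int.le_floor]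
      refine le_trans ?_ hω1
      exact_mod_cast Finset.single_le_sum (f := fun x => negp m (run (cf ω) t x))
        (fun y _ => le_max_left _ _) hx
    have hpos : ∀ x ∈ B, posp m (run (cf ω) t x) ≤ R' := by
      intro x hx
      rw [hR', Int.le_floor]
      refine le_trans ?_ hω2
      exact_mod_cast Finset.single_le_sum (f := fun x => posp m (run (cf ω) t x))
        (fun y _ => le_max_left _ _) hx
    rw [Set.mem_iUnion₂]
    refine ⟨(fun x => run (cf ω) t x, fun y => od (cf ω) t y, fun x => lab (ω x)), ?_,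
      fun x => rfl, fun y => rfl, fun x => rfl⟩
    rw [Finset.mem_product, Finset.mem_product]
    refine ⟨?_, ?_, ?_⟩
    · rw [hΞ, Finset.mem_filter, Fintype.mem_piFinset]
      refine ⟨?_, ?_, ?_⟩
      · intro x
        rw [Finset.mem_Icc]
        have h1 := hneg x x.2
        have h2 := hpos x x.2
        unfold negp at h1
        unfold posp at h2
        constructor
        · have := le_max_right 0 (m - run (cf ω) t x)
          show m - R ≤ run (cf ω) t x
          omega
        · have := le_max_right 0 (run (cf ω) t x - m)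
          show run (cf ω) t x ≤ m + R'
          omega
      · show ((∑ x : B, negp m (run (cf ω) t x) : ℤ) : ℝ) ≤ K1
        rw [Finset.sum_coe_sort B (fun x => negp m (run (cf ω) t x))]
        exact hω1
      · show ((∑ x : B, posp m (run (cf ω) t x) : ℤ) : ℝ) ≤ K2
        rw [Finset.sum_coe_sort B (fun x => posp m (run (cf ω) t x))]
        exact hω2
    · rw [hBt, Fintype.mem_piFinset]
      intro y
      rw [Finset.mem_Icc]
      exact ⟨od_nonneg _ _ _, od_le _ _ _⟩
    · rw [hLb, Fintype.mem_piFinset]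
      intro x
      rw [Finset.mem_range]
      apply hJ
      have h1 := run_eq (cf ω) t x
      have h2 : -(2 * d * t : ℤ) ≤ lap (od (cf ω) t) x := by
        unfold lap
        have h3 : 0 ≤ ∑ i : Fin d, (od (cf ω) t ((x : Fin d → ℤ) + Pi.single i 1)
            + od (cf ω) t ((x : Fin d → ℤ) - Pi.single i 1)) :=
          Finset.sum_nonneg fun i _ => add_nonneg (od_nonneg _ _ _) (od_nonneg _ _ _)
        have h4 := od_le (cf ω) t x
        have h5 : (2 * (d : ℤ)) * od (cf ω) t x ≤ 2 * d * t := by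
          apply mul_le_mul_of_nonneg_left h4
          positivity
        omega
      have h6 := hpos x x.2
      unfold posp at h6
      have h7 := le_max_right 0 (run (cf ω) t x - m)
      have h8 : ((ω x : ℕ) : ℤ) = cf ω x := rfl
      have h9 : ((ω x : ℕ) : ℤ) ≤ m + R' + 2 * d * t := by omega
      rw [hKmax]
      omega
  haveI : IsProbabilityMeasure (fld d ν) := by unfold fld; infer_instance
  have hΞcard : (Ξ.card : ℝ) ≤ Real.exp (θ * K1 + Θ * K2) *
      (1 / (1 - Real.exp (-θ)) + Real.exp (-Θ) / (1 - Real.exp (-Θ))) ^ B.card := by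
    calc (Ξ.card : ℝ) = ∑ ξ ∈ Ξ, (1 : ℝ) := by simp
      _ ≤ ∑ ξ ∈ Ξ, Real.exp (θ * K1 + Θ * K2) *
          ∏ x : B, Real.exp (-(θ * (negp m (ξ x) : ℤ)) - Θ * (posp m (ξ x) : ℤ)) := by
          apply Finset.sum_le_sum
          intro ξ hξ
          rw [hΞ, Finset.mem_filter] at hξ
          rw [← Real.exp_sum, ← Real.exp_add, Real.one_le_exp_iff, Finset.sum_sub_distrib,
            Finset.sum_neg_distrib, ← Finset.mul_sum, ← Finset.mul_sum]
          have h1 := hξ.2.1
          have h2 := hξ.2.2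
          push_cast at h1 h2
          have h3 := mul_le_mul_of_nonneg_left h1 hθ.le
          have h4 := mul_le_mul_of_nonneg_left h2 hΘ.le
          linarith
      _ ≤ ∑ ξ ∈ Fintype.piFinset fun _ : B => Finset.Icc (m - R) (m + R'),
          Real.exp (θ * K1 + Θ * K2) *
          ∏ x : B, Real.exp (-(θ * (negp m (ξ x) : ℤ)) - Θ * (posp m (ξ x) : ℤ)) :=
          Finset.sum_le_sum_of_subset_of_nonneg (Finset.filter_subset _ _)
            fun _ _ _ => mul_nonneg (Real.exp_pos _).le
              (Finset.prod_nonneg fun _ _ => (Real.exp_pos _).le)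
      _ = Real.exp (θ * K1 + Θ * K2) * ∏ x : B, ∑ z ∈ Finset.Icc (m - R) (m + R'),
          Real.exp (-(θ * (negp m z : ℤ)) - Θ * (posp m z : ℤ)) := by
          rw [← Finset.mul_sum, Finset.prod_univ_sum]
      _ ≤ Real.exp (θ * K1 + Θ * K2) * ∏ x : B,
          (1 / (1 - Real.exp (-θ)) + Real.exp (-Θ) / (1 - Real.exp (-Θ))) := by
          apply mul_le_mul_of_nonneg_left _ (Real.exp_pos _).le
          apply Finset.prod_le_prod
          · intro x _
            exact Finset.sum_nonneg fun _ _ => (Real.exp_pos _).le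
          · intro x _
            exact weight_sum_le _ _ _ _ _ hθ hΘ
      _ = _ := by
          rw [Finset.prod_const, Finset.card_univ, Fintype.card_coe]
  have hBtcard : (Bt.card : ℝ) = ((t : ℝ) + 1) ^ (B'.card - B.card) := by
    rw [hBt, Fintype.card_piFinset]
    simp only [Int.card_Icc, Finset.prod_const, Finset.card_univ, Fintype.card_coe]
    rw [Finset.card_sdiff_of_subset hBB']
    push_cast
    congr 1
    have : ((t : ℤ) + 1 - 0).toNat = t + 1 := by omega
    rw [this]
    push_cast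
    ring
  have hLbsum : ∑ l ∈ Lb, ∏ x : B, M (l x) ≤ Ps ^ B.card := by
    rw [hLb, ← Finset.prod_univ_sum (fun _ : B => Finset.range J) (fun _ j => M j),
      Finset.prod_const, Finset.card_univ, Fintype.card_coe]
    exact pow_le_pow_left₀ (Finset.sum_nonneg fun j _ => hM0 j) (hPs J) _
  have hW : 0 ≤ 1 / (1 - Real.exp (-θ)) + Real.exp (-Θ) / (1 - Real.exp (-Θ)) := by
    have h1 : Real.exp (-θ) < 1 := by rw [Real.exp_lt_one_iff]; linarith
    have h2 : Real.exp (-Θ) < 1 := by rw [Real.exp_lt_one_iff]; linarith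
    have h3 := Real.exp_pos (-Θ)
    have h4 : 0 < 1 - Real.exp (-θ) := by linarith
    have h5 : 0 < 1 - Real.exp (-Θ) := by linarith
    positivity
  calc (fld d ν).real (Good B t K1 K2)
      ≤ (fld d ν).real (⋃ p ∈ Ξ ×ˢ (Bt ×ˢ Lb), C p) :=
        measureReal_mono hcover (measure_ne_top _ _)
    _ ≤ ∑ p ∈ Ξ ×ˢ (Bt ×ˢ Lb), (fld d ν).real (C p) := measureReal_biUnion_finset_le _ _
    _ ≤ ∑ p ∈ Ξ ×ˢ (Bt ×ˢ Lb), ∏ x : B, M (p.2.2 x) := Finset.sum_le_sum fun p _ => hC p
    _ = (Ξ.card : ℝ) * ((Bt.card : ℝ) * ∑ l ∈ Lb, ∏ x : B, M (l x)) := by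
        rw [Finset.sum_product]
        dsimp only
        rw [Finset.sum_const, nsmul_eq_mul]
        congr 1
        rw [Finset.sum_product]
        dsimp only
        rw [Finset.sum_const, nsmul_eq_mul]
    _ ≤ (Real.exp (θ * K1 + Θ * K2) *
      (1 / (1 - Real.exp (-θ)) + Real.exp (-Θ) / (1 - Real.exp (-Θ))) ^ B.card) *
        (((t : ℝ) + 1) ^ (B'.card - B.card) * Ps ^ B.card) := by
        rw [hBtcard]
        apply mul_le_mul hΞcard
        · exact mul_le_mul_of_nonneg_left hLbsum (by positivity)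
        · exact mul_nonneg (by positivity) (Finset.sum_nonneg fun _ _ =>
            Finset.prod_nonneg fun _ _ => hM0 _)
        · exact mul_nonneg (Real.exp_pos _).le (pow_nonneg hW _)
    _ = _ := by ring

end Pool.Agent.Helper581.Sand
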