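import Mathlib

/-!
The abelian sandpile on `ℤ^d` with parallel updates and a Poisson initial state: the definitions
of the problem.
-/

set_option autoImplicit false

namespace Pool.Agent.Helper581.Sand

open MeasureTheory ProbabilityTheory

/-- One parallel update of the abelian sandpile on `ℤ^d`: every vertex which carries at least
`2 d` grains loses `2 d` grains, and every vertex gains one grain from each of its `2 d` nearest
neighbours `x + e_i`, `x - e_i` which carries at least `2 d` grains. -/
def step {d : ℕ} (a : (Fin d → ℤ) → ℤ) : (Fin d → ℤ) → ℤ := fun x =>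
  a x - (if 2 * (d : ℤ) ≤ a x then 2 * (d : ℤ) else 0)
    + ∑ i : Fin d, ((if 2 * (d : ℤ) ≤ a (x + Pi.single i 1) then 1 else 0)
      + (if 2 * (d : ℤ) ≤ a (x - Pi.single i 1) then 1 else 0))

/-- The configuration at time `t` of the sandpile started from `a`. -/
def run {d : ℕ} (a : (Fin d → ℤ) → ℤ) (t : ℕ) : (Fin d → ℤ) → ℤ := step^[t] a

/-- The sandpile started from `a` percolates: every vertex topples infinitely many times (the
vertex `x` topples at time `t + 1` when it carries at least `2 d` grains at time `t`). -/
def Percolates {d : ℕ} (a : (Fin d → ℤ) → ℤ) : Prop :=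
  ∀ (x : Fin d → ℤ) (T : ℕ), ∃ t, T ≤ t ∧ 2 * (d : ℤ) ≤ run a t x

/-- The law `ℙ_l` of a family of independent Poisson variables of mean `l` indexed by `ℤ^d`. -/
noncomputable def poissonField (d : ℕ) (l : NNReal) : Measure ((Fin d → ℤ) → ℕ) :=
  Measure.infinitePi fun _ => poissonMeasure l

/-- The critical density: the infimum of the `l > 0` such that the sandpile started from
independent Poisson variables of mean `l` percolates with probability one. -/
noncomputable def criticalDensity (d : ℕ) : ℝ :=
  sInf {l : ℝ | 0 < l ∧
    poissonField d l.toNNReal {ω | Percolates fun x => (ω x : ℤ)} = 1}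

end Pool.Agent.Helper581.Sand
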