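import Pool.Agent.Helper581.Sand.Defs

set_option autoImplicit false

namespace Pool.Agent.Helper581.Sand

variable {d : ℕ}

/-- toppling indicator -/
def tp (a : (Fin d → ℤ) → ℤ) (x : Fin d → ℤ) : ℤ := if 2 * (d : ℤ) ≤ a x then 1 else 0

/-- discrete Laplacian -/
def lap (w : (Fin d → ℤ) → ℤ) (x : Fin d → ℤ) : ℤ :=
  ∑ i : Fin d, (w (x + Pi.single i 1) + w (x - Pi.single i 1)) - 2 * (d : ℤ) * w x

lemma tp_nonneg (a : (Fin d → ℤ) → ℤ) (x : Fin d → ℤ) : 0 ≤ tp a x := by
  unfold tp; split_ifs <;> norm_num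

lemma tp_le_one (a : (Fin d → ℤ) → ℤ) (x : Fin d → ℤ) : tp a x ≤ 1 := by
  unfold tp; split_ifs <;> norm_num

lemma step_eq (a : (Fin d → ℤ) → ℤ) (x : Fin d → ℤ) : step a x = a x + lap (tp a) x := by
  unfold step lap tp
  split_ifs <;> ring

lemma run_zero (a : (Fin d → ℤ) → ℤ) : run a 0 = a := rfl

lemma run_succ (a : (Fin d → ℤ) → ℤ) (t : ℕ) : run a (t + 1) = step (run a t) :=
  Function.iterate_succ_apply' _ _ _

/-- the odometer -/
def od (a : (Fin d → ℤ) → ℤ) (t : ℕ) (x : Fin d → ℤ) : ℤ := ∑ s ∈ Finset.range t, tp (run a s) x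

lemma od_nonneg (a : (Fin d → ℤ) → ℤ) (t : ℕ) (x : Fin d → ℤ) : 0 ≤ od a t x :=
  Finset.sum_nonneg fun _ _ => tp_nonneg _ _

lemma od_le (a : (Fin d → ℤ) → ℤ) (t : ℕ) (x : Fin d → ℤ) : od a t x ≤ t := by
  unfold od
  calc ∑ s ∈ Finset.range t, tp (run a s) x ≤ ∑ s ∈ Finset.range t, 1 :=
        Finset.sum_le_sum fun _ _ => tp_le_one _ _
    _ = t := by simp

lemma lap_add (w w' : (Fin d → ℤ) → ℤ) (x : Fin d → ℤ) :
    lap (fun y => w y + w' y) x = lap w x + lap w' x := by
  unfold lap
  simp only [Finset.sum_add_distrib]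
  ring

lemma lap_sub (w w' : (Fin d → ℤ) → ℤ) (x : Fin d → ℤ) :
    lap (fun y => w y - w' y) x = lap w x - lap w' x := by
  unfold lap
  simp only [Finset.sum_add_distrib, Finset.sum_sub_distrib]
  ring

lemma run_eq (a : (Fin d → ℤ) → ℤ) (t : ℕ) (x : Fin d → ℤ) :
    run a t x = a x + lap (od a t) x := by
  induction t with
  | zero => simp [run_zero, od, lap]
  | succ t ih =>
    have h1 : od a (t + 1) = fun y => od a t y + tp (run a t) y := by
      funext y
      unfold od
      rw [Finset.sum_range_succ]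
    rw [run_succ, step_eq, ih, h1, lap_add]
    ring

lemma run_nonneg {a : (Fin d → ℤ) → ℤ} (ha : ∀ x, 0 ≤ a x) (t : ℕ) (x : Fin d → ℤ) :
    0 ≤ run a t x := by
  induction t generalizing x with
  | zero => exact ha x
  | succ t ih =>
    rw [run_succ]
    unfold step
    have h1 : 0 ≤ ∑ i : Fin d, ((if 2 * (d : ℤ) ≤ run a t (x + Pi.single i 1) then (1 : ℤ) else 0)
        + (if 2 * (d : ℤ) ≤ run a t (x - Pi.single i 1) then 1 else 0)) := by
      apply Finset.sum_nonneg
      intro i _
      split_ifs <;> norm_num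
    have h2 := ih x
    split_ifs with h
    · omega
    · omega

lemma run_le (a : (Fin d → ℤ) → ℤ) (t : ℕ) (x : Fin d → ℤ) :
    run a t x ≤ max (a x) (4 * d) := by
  induction t with
  | zero => exact le_max_left _ _
  | succ t ih =>
    rw [run_succ]
    unfold step
    have h1 : ∑ i : Fin d, ((if 2 * (d : ℤ) ≤ run a t (x + Pi.single i 1) then (1 : ℤ) else 0)
        + (if 2 * (d : ℤ) ≤ run a t (x - Pi.single i 1) then 1 else 0)) ≤ 2 * d := by
      calc _ ≤ ∑ i : Fin d, (2 : ℤ) := by
            apply Finset.sum_le_sum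
            intro i _
            split_ifs <;> norm_num
        _ = 2 * d := by simp [mul_comm]
    have h3 : (4 * (d : ℤ)) ≤ max (a x) (4 * d) := le_max_right _ _
    split_ifs with h
    · omega
    · omega

lemma step_shift (a : (Fin d → ℤ) → ℤ) (v x : Fin d → ℤ) :
    step (fun y => a (y + v)) x = step a (x + v) := by
  unfold step
  have h1 : ∀ i : Fin d, x + Pi.single i 1 + v = x + v + Pi.single i 1 := fun i => by abel
  have h2 : ∀ i : Fin d, x - Pi.single i 1 + v = x + v - Pi.single i 1 := fun i => by abel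
  simp only [h1, h2]

lemma run_shift (a : (Fin d → ℤ) → ℤ) (v : Fin d → ℤ) (t : ℕ) (x : Fin d → ℤ) :
    run (fun y => a (y + v)) t x = run a t (x + v) := by
  induction t generalizing x with
  | zero => rfl
  | succ t ih =>
    rw [run_succ, run_succ, ← step_shift]
    congr 1
    funext y
    exact ih y

lemma percolates_shift (a : (Fin d → ℤ) → ℤ) (v : Fin d → ℤ) :
    Percolates (fun y => a (y + v)) ↔ Percolates a := by
  unfold Percolates
  constructor
  · intro h x T
    obtain ⟨t, ht, h1⟩ := h (x - v) T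
    refine ⟨t, ht, ?_⟩
    rw [run_shift] at h1
    simpa using h1
  · intro h x T
    obtain ⟨t, ht, h1⟩ := h (x + v) T
    exact ⟨t, ht, by rw [run_shift]; exact h1⟩

/-- `x` topples only finitely often -/
def Fin' (a : (Fin d → ℤ) → ℤ) (x : Fin d → ℤ) : Prop :=
  ∃ T : ℕ, ∀ t, T ≤ t → run a t x < 2 * (d : ℤ)

lemma fin_nbr {a : (Fin d → ℤ) → ℤ} {x y : Fin d → ℤ} (hx : Fin' a x)
    (hy : ∃ i : Fin d, y = x + Pi.single i 1 ∨ y = x - Pi.single i 1) : Fin' a y := by
  obtain ⟨T, hT⟩ := hx
  by_contra hcon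
  unfold Fin' at hcon
  push Not at hcon
  have hstep : ∀ t, T ≤ t → run a t x + tp (run a t) y ≤ run a (t + 1) x := by
    intro t ht
    have h1 := hT t ht
    rw [run_succ, step_eq]
    have h2 : tp (run a t) x = 0 := by
      unfold tp
      rw [if_neg (by omega)]
    have h3 : tp (run a t) y ≤ ∑ i : Fin d, (tp (run a t) (x + Pi.single i 1)
        + tp (run a t) (x - Pi.single i 1)) := by
      obtain ⟨i, hi⟩ := hy
      have h4 : tp (run a t) y ≤ tp (run a t) (x + Pi.single i 1)
          + tp (run a t) (x - Pi.single i 1) := by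
        rcases hi with rfl | rfl
        · have := tp_nonneg (run a t) (x - Pi.single i 1); omega
        · have := tp_nonneg (run a t) (x + Pi.single i 1); omega
      refine h4.trans (Finset.single_le_sum (f := fun i => tp (run a t) (x + Pi.single i 1)
        + tp (run a t) (x - Pi.single i 1)) ?_ (Finset.mem_univ i))
      intro j _
      have := tp_nonneg (run a t) (x - Pi.single j 1)
      have := tp_nonneg (run a t) (x + Pi.single j 1)
      omega
    unfold lap
    rw [h2]
    omega
  have hunb : ∀ N : ℕ, ∃ t, T ≤ t ∧ run a T x + N ≤ run a t x := by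
    intro N
    induction N with
    | zero => exact ⟨T, le_rfl, by simp⟩
    | succ N ih =>
      obtain ⟨t, ht, h1⟩ := ih
      obtain ⟨s, hs, h2⟩ := hcon t
      have hmono : ∀ k : ℕ, run a t x ≤ run a (t + k) x := by
        intro k
        induction k with
        | zero => exact le_rfl
        | succ k ihk =>
          have := hstep (t + k) (by omega)
          have h5 := tp_nonneg (run a (t + k)) y
          have h6 : run a (t + (k + 1)) x = run a (t + k + 1) x := rfl
          omega
      obtain ⟨k, rfl⟩ := Nat.exists_eq_add_of_le hs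
      have h3 := hstep (t + k) (by omega)
      have h4 : tp (run a (t + k)) y = 1 := by
        unfold tp
        rw [if_pos h2]
      have h5 := hmono k
      refine ⟨t + k + 1, by omega, ?_⟩
      push_cast
      omega
  obtain ⟨t, ht, h1⟩ := hunb (2 * d + (-(run a T x)).toNat)
  have h2 := hT t ht
  push_cast at h1
  omega

lemma fin_all {a : (Fin d → ℤ) → ℤ} (h : ¬ Percolates a) (x : Fin d → ℤ) : Fin' a x := by
  have h0 : ∃ x0, Fin' a x0 := by
    unfold Percolates at h
    push Not at h
    obtain ⟨x0, T, hT⟩ := h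
    exact ⟨x0, T, fun t ht => hT t ht⟩
  obtain ⟨x0, hx0⟩ := h0
  let H : AddSubgroup (Fin d → ℤ) :=
    { carrier := {v | ∀ y, Fin' a y ↔ Fin' a (y + v)}
      zero_mem' := fun y => by simp
      add_mem' := fun {v w} hv hw y => by
        rw [hv y, hw (y + v), add_assoc]
      neg_mem' := fun {v} hv y => by
        rw [hv (y + -v)]
        simp }
  have hunit : ∀ i : Fin d, (Pi.single i 1 : Fin d → ℤ) ∈ H := by
    intro i y
    constructor
    · intro hy
      exact fin_nbr hy ⟨i, Or.inl rfl⟩
    · intro hy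
      exact fin_nbr hy ⟨i, Or.inr (by simp)⟩
  have hmem : x - x0 ∈ H := by
    have h1 : x - x0 = ∑ i : Fin d, (x - x0) i • (Pi.single i (1 : ℤ) : Fin d → ℤ) := by
      funext j
      simp [Finset.sum_apply, Pi.single_apply]
    rw [h1]
    exact AddSubgroup.sum_mem _ fun i _ => H.zsmul_mem (hunit i) _
  have h2 := (hmem x0).1 hx0
  simpa using h2

/-- maximum principle: an integer function with finite support whose Laplacian is at most
`d - 1` in absolute value on a finite set containing the support is zero. -/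
lemma max_principle_aux (B : Finset (Fin d → ℤ)) (w : (Fin d → ℤ) → ℤ) (hw : ∀ x ∉ B, w x = 0)
    (hd : 1 ≤ d) (hl : ∀ x ∈ B, -((d : ℤ) - 1) ≤ lap w x) : ∀ x, w x ≤ 0 := by
  by_contra hcon
  push Not at hcon
  obtain ⟨x1, hx1⟩ := hcon
  have hx1B : x1 ∈ B := by
    by_contra h
    rw [hw x1 h] at hx1
    exact lt_irrefl _ hx1
  obtain ⟨m, hmB, hm⟩ := Finset.exists_max_image B w ⟨x1, hx1B⟩
  have hmpos : 0 < w m := lt_of_lt_of_le hx1 (hm x1 hx1B)
  have hmall : ∀ y, w y ≤ w m := by
    intro y
    by_cases hy : y ∈ B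
    · exact hm y hy
    · rw [hw y hy]; exact hmpos.le
  obtain ⟨x, hxF, hx⟩ := Finset.exists_max_image (B.filter fun y => w y = w m)
    (fun y => ∑ i, y i) ⟨m, by simp [hmB]⟩
  rw [Finset.mem_filter] at hxF
  have hplus : ∀ i : Fin d, w (x + Pi.single i 1) ≤ w m - 1 := by
    intro i
    rcases (hmall (x + Pi.single i 1)).lt_or_eq with h | h
    · omega
    · exfalso
      have hB : x + Pi.single i 1 ∈ B := by
        by_contra h3
        rw [hw _ h3] at h
        omega
      have h4 := hx (x + Pi.single i 1) (by simp [hB, h])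
      simp [Finset.sum_add_distrib, Finset.sum_pi_single'] at h4
  have h5 : lap w x ≤ -(d : ℤ) := by
    unfold lap
    rw [hxF.2]
    have h6 : ∑ i : Fin d, (w (x + Pi.single i 1) + w (x - Pi.single i 1))
        ≤ ∑ i : Fin d, (2 * w m - 1) := by
      apply Finset.sum_le_sum
      intro i _
      have h7 := hplus i
      have h8 := hmall (x - Pi.single i 1)
      omega
    rw [Finset.sum_const, Finset.card_univ, Fintype.card_fin, nsmul_eq_mul] at h6
    nlinarith
  have h9 := hl x hxF.1
  omega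

lemma max_principle (B : Finset (Fin d → ℤ)) (w : (Fin d → ℤ) → ℤ) (hw : ∀ x ∉ B, w x = 0)
    (hd : 1 ≤ d) (hl : ∀ x ∈ B, |lap w x| ≤ (d : ℤ) - 1) (x : Fin d → ℤ) : w x = 0 := by
  have h1 := max_principle_aux B w hw hd (fun x hx => (abs_le.1 (hl x hx)).1) x
  have h2 := max_principle_aux B (fun y => 0 - w y) (fun x hx => by rw [hw x hx]; rfl) hd
    (fun x hx => by
      rw [lap_sub]
      have h3 := (abs_le.1 (hl x hx)).2
      have h4 : lap (fun _ : Fin d → ℤ => (0 : ℤ)) x = 0 := by simp [lap]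
      rw [h4]
      omega) x
  have h3 : 0 - w x ≤ 0 := h2
  omega

end Pool.Agent.Helper581.Sand
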