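import Pool.Agent.Helper581.Sand.Count

set_option autoImplicit false

namespace Pool.Agent.Helper581.Sand

open MeasureTheory ProbabilityTheory Filter Topology Function

variable {d : ℕ} {ν : Measure ℕ} [IsProbabilityMeasure ν]

instance : IsProbabilityMeasure (fld d ν) := by unfold fld; infer_instance

/-- shift by `v` -/
def shE (v : Fin d → ℤ) : ((Fin d → ℤ) → ℕ) ≃ᵐ ((Fin d → ℤ) → ℕ) :=
  MeasurableEquiv.piCongrLeft (fun _ : Fin d → ℤ => ℕ) (Equiv.subRight v)

lemma shE_apply (v : Fin d → ℤ) (ω : (Fin d → ℤ) → ℕ) (x : Fin d → ℤ) :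
    shE v ω x = ω (x + v) := by
  have h1 := Equiv.piCongrLeft_apply_apply (fun _ : Fin d → ℤ => ℕ) (Equiv.subRight v) ω (x + v)
  have h2 : (Equiv.subRight v) (x + v) = x := by simp
  rw [h2] at h1
  exact h1

lemma shE_mp (v : Fin d → ℤ) : MeasurePreserving (shE v) (fld d ν) (fld d ν) :=
  ⟨(shE v).measurable, by
    unfold fld shE
    exact Measure.infinitePi_map_piCongrLeft (μ := fun _ : Fin d → ℤ => ν) (Equiv.subRight v)⟩

lemma cf_shE (v : Fin d → ℤ) (ω : (Fin d → ℤ) → ℕ) :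
    cf (shE v ω) = fun y => cf ω (y + v) := by
  funext y
  unfold cf
  rw [shE_apply]

lemma meas_cf (x : Fin d → ℤ) : Measurable fun ω : (Fin d → ℤ) → ℕ => cf ω x := by
  unfold cf
  exact (Measurable.of_discrete (f := fun n : ℕ => (n : ℤ))).comp (measurable_pi_apply x)

lemma meas_run (t : ℕ) (x : Fin d → ℤ) :
    Measurable fun ω : (Fin d → ℤ) → ℕ => run (cf ω) t x := by
  induction t generalizing x with
  | zero => exact meas_cf x
  | succ t ih =>
    have h1 : (fun ω : (Fin d → ℤ) → ℕ => run (cf ω) (t + 1) x)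
        = fun ω => run (cf ω) t x - (if 2 * (d : ℤ) ≤ run (cf ω) t x then 2 * (d : ℤ) else 0)
          + ∑ i : Fin d, ((if 2 * (d : ℤ) ≤ run (cf ω) t (x + Pi.single i 1) then 1 else 0)
          + (if 2 * (d : ℤ) ≤ run (cf ω) t (x - Pi.single i 1) then 1 else 0)) := by
      funext ω
      rw [run_succ]
      rfl
    rw [h1]
    have hle : ∀ y : Fin d → ℤ, MeasurableSet {ω : (Fin d → ℤ) → ℕ |
        2 * (d : ℤ) ≤ run (cf ω) t y} := fun y => measurableSet_le measurable_const (ih y)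
    refine ((ih x).sub (Measurable.ite (hle x) measurable_const measurable_const)).add ?_
    refine Finset.measurable_sum _ fun i _ => ?_
    exact (Measurable.ite (hle _) measurable_const measurable_const).add
      (Measurable.ite (hle _) measurable_const measurable_const)

/-- the event of no percolation -/
def NP (d : ℕ) : Set ((Fin d → ℤ) → ℕ) := {ω | ¬ Percolates (cf ω)}

lemma meas_NP : MeasurableSet (NP d) := by
  have h1 : (NP d)ᶜ = ⋂ (x : Fin d → ℤ), ⋂ (T : ℕ), ⋃ (t : ℕ), ⋃ (_ : T ≤ t),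
      {ω : (Fin d → ℤ) → ℕ | 2 * (d : ℤ) ≤ run (cf ω) t x} := by
    ext ω
    simp [NP, Percolates]
  rw [← MeasurableSet.compl_iff, h1]
  refine MeasurableSet.iInter fun x => MeasurableSet.iInter fun T => MeasurableSet.iUnion fun t =>
    MeasurableSet.iUnion fun _ => measurableSet_le measurable_const (meas_run t x)

lemma shE_NP (v : Fin d → ℤ) : shE v ⁻¹' (NP d) = NP d := by
  ext ω
  simp only [NP, Set.mem_preimage, Set.mem_setOf_eq]
  rw [cf_shE, percolates_shift]

lemma int_shift (v : Fin d → ℤ) (f : ((Fin d → ℤ) → ℕ) → ℝ) :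
    ∫ ω in NP d, f (shE v ω) ∂(fld d ν) = ∫ ω in NP d, f ω ∂(fld d ν) := by
  have h1 := (shE_mp (ν := ν) v).setIntegral_preimage_emb (shE v).measurableEmbedding f (NP d)
  rw [shE_NP] at h1
  exact h1

lemma run_shift0 (t : ℕ) (v : Fin d → ℤ) (ω : (Fin d → ℤ) → ℕ) :
    run (cf (shE v ω)) t 0 = run (cf ω) t v := by
  rw [cf_shE, run_shift, zero_add]

lemma int_run_shift (t : ℕ) (v : Fin d → ℤ) (g : ℤ → ℝ) :
    ∫ ω in NP d, g (run (cf ω) t v) ∂(fld d ν) = ∫ ω in NP d, g (run (cf ω) t 0) ∂(fld d ν) := by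
  rw [← int_shift (ν := ν) v (fun ω => g (run (cf ω) t 0))]
  simp_rw [run_shift0]

/-- indicator as a function of the height -/
noncomputable def ind (d : ℕ) (z : ℤ) : ℝ := if 2 * (d : ℤ) ≤ z then 1 else 0

variable (hint : Integrable (fun n : ℕ => (n : ℝ)) ν)

include hint in
lemma int_cf0 (x : Fin d → ℤ) :
    Integrable (fun ω : (Fin d → ℤ) → ℕ => (ω x : ℝ)) (fld d ν) := by
  have h1 := (measurePreserving_eval_infinitePi (fun _ : Fin d → ℤ => ν) x)
  exact h1.integrable_comp_of_integrable hint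

include hint in
lemma int_run (t : ℕ) (x : Fin d → ℤ) :
    Integrable (fun ω : (Fin d → ℤ) → ℕ => ((run (cf ω) t x : ℤ) : ℝ)) (fld d ν) := by
  refine ((int_cf0 hint x).add (integrable_const (4 * (d : ℝ)))).mono'
    ((Measurable.of_discrete (f := fun z : ℤ => (z : ℝ))).comp (meas_run t x)).aestronglyMeasurable
    (Filter.Eventually.of_forall fun ω => ?_)
  have h1 := run_nonneg (a := cf ω) (fun y => by unfold cf; positivity) t x
  have h2 := run_le (cf ω) t x
  have h3 : run (cf ω) t x ≤ cf ω x + 4 * d := by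
    have h4 : (0 : ℤ) ≤ cf ω x := by unfold cf; positivity
    omega
  rw [Real.norm_eq_abs, abs_of_nonneg (by exact_mod_cast h1)]
  have h5 : ((run (cf ω) t x : ℤ) : ℝ) ≤ ((cf ω x + 4 * d : ℤ) : ℝ) := by exact_mod_cast h3
  have h6 : ((cf ω x : ℤ) : ℝ) = (ω x : ℝ) := by simp [cf]
  push_cast at h5
  rw [h6] at h5
  exact h5

lemma int_ind (t : ℕ) (x : Fin d → ℤ) :
    Integrable (fun ω : (Fin d → ℤ) → ℕ => ind d (run (cf ω) t x)) (fld d ν) := by
  refine (integrable_const (1 : ℝ)).mono'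
    ((Measurable.of_discrete (f := ind d)).comp (meas_run t x)).aestronglyMeasurable
    (Filter.Eventually.of_forall fun ω => ?_)
  unfold ind
  split_ifs <;> simp

include hint in
lemma mean_run (t : ℕ) :
    ∫ ω in NP d, ((run (cf ω) t 0 : ℤ) : ℝ) ∂(fld d ν)
      = ∫ ω in NP d, (ω 0 : ℝ) ∂(fld d ν) := by
  induction t with
  | zero => rfl
  | succ t ih =>
    have h1 : ∀ ω : (Fin d → ℤ) → ℕ, ((run (cf ω) (t + 1) 0 : ℤ) : ℝ)
        = ((run (cf ω) t 0 : ℤ) : ℝ) + (∑ i : Fin d, (ind d (run (cf ω) t (0 + Pi.single i 1))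
          + ind d (run (cf ω) t (0 - Pi.single i 1))) - 2 * (d : ℝ) * ind d (run (cf ω) t 0)) := by
      intro ω
      rw [run_succ, step_eq]
      unfold lap tp ind
      push_cast
      rfl
    simp_rw [h1]
    have hI : ∀ x : Fin d → ℤ, Integrable (fun ω : (Fin d → ℤ) → ℕ => ind d (run (cf ω) t x))
        ((fld d ν).restrict (NP d)) := fun x => (int_ind t x).restrict
    have hR : Integrable (fun ω : (Fin d → ℤ) → ℕ => ((run (cf ω) t 0 : ℤ) : ℝ))
        ((fld d ν).restrict (NP d)) := (int_run hint t 0).restrict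
    have hS : Integrable (fun ω : (Fin d → ℤ) → ℕ =>
        ∑ i : Fin d, (ind d (run (cf ω) t (0 + Pi.single i 1))
          + ind d (run (cf ω) t (0 - Pi.single i 1)))) ((fld d ν).restrict (NP d)) :=
      integrable_finset_sum _ fun i _ => (hI _).add (hI _)
    have hSub : Integrable (fun ω : (Fin d → ℤ) → ℕ =>
        ∑ i : Fin d, (ind d (run (cf ω) t (0 + Pi.single i 1))
          + ind d (run (cf ω) t (0 - Pi.single i 1))) - 2 * (d : ℝ) * ind d (run (cf ω) t 0))
        ((fld d ν).restrict (NP d)) := hS.sub ((hI 0).const_mul _)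
    have hII : ∀ i : Fin d, Integrable (fun ω : (Fin d → ℤ) → ℕ =>
        ind d (run (cf ω) t (0 + Pi.single i 1)) + ind d (run (cf ω) t (0 - Pi.single i 1)))
        ((fld d ν).restrict (NP d)) := fun i => (hI _).add (hI _)
    rw [integral_add hR hSub, integral_sub hS ((hI 0).const_mul _),
      integral_finset_sum _ fun i _ => hII i, integral_const_mul]
    have h2 : ∀ i : Fin d, ∫ ω in NP d, (ind d (run (cf ω) t (0 + Pi.single i 1))
          + ind d (run (cf ω) t (0 - Pi.single i 1))) ∂(fld d ν)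
          = 2 * ∫ ω in NP d, ind d (run (cf ω) t 0) ∂(fld d ν) := by
      intro i
      rw [integral_add (hI _) (hI _), int_run_shift t (0 + Pi.single i 1) (ind d),
        int_run_shift t (0 - Pi.single i 1) (ind d)]
      ring
    simp_rw [h2]
    rw [ih, Finset.sum_const, Finset.card_univ, Fintype.card_fin, nsmul_eq_mul]
    ring

include hint in
lemma mean_zero (hd : 1 ≤ d) :
    ∫ ω in NP d, (ω 0 : ℝ) ∂(fld d ν) = (∫ n, (n : ℝ) ∂ν) * (fld d ν).real (NP d) := by
  set μ := fld d ν with hμ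
  set lam : ℝ := ∫ n, (n : ℝ) ∂ν with hlam
  set X : ℕ → ((Fin d → ℤ) → ℕ) → ℝ := fun n ω => (ω (fun _ => (n : ℤ)) : ℝ) with hX
  have hXint : ∀ n, Integrable (X n) μ := fun n => int_cf0 hint _
  have hind : Pairwise ((· ⟂ᵢ[μ] ·) on X) := by
    intro i j hij
    have h1 := iIndepFun_infinitePi (P := fun _ : Fin d → ℤ => ν)
      (X := fun (_ : Fin d → ℤ) (n : ℕ) => (n : ℝ)) (fun _ => Measurable.of_discrete)
    have hne : (fun _ : Fin d => (i : ℤ)) ≠ fun _ => (j : ℤ) := by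
      intro h
      have := congrFun h ⟨0, hd⟩
      exact hij (by exact_mod_cast this)
    exact h1.indepFun hne
  have hmap : ∀ n, μ.map (X n) = ν.map (fun k : ℕ => (k : ℝ)) := by
    intro n
    have h1 := (measurePreserving_eval_infinitePi (fun _ : Fin d → ℤ => ν) (fun _ => (n : ℤ)))
    have h3 : Measurable (fun ω : (Fin d → ℤ) → ℕ => ω (fun _ => (n : ℤ))) :=
      measurable_pi_apply _
    have h4 := Measure.map_map (μ := μ) (Measurable.of_discrete (f := fun k : ℕ => (k : ℝ))) h3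
    have h5 : μ.map (fun ω : (Fin d → ℤ) → ℕ => ω (fun _ => (n : ℤ))) = ν := h1.map_eq
    rw [h5] at h4
    exact h4.symm
  have hmeas : ∀ n, Measurable (X n) := fun n =>
    (Measurable.of_discrete (f := fun k : ℕ => (k : ℝ))).comp (measurable_pi_apply _)
  have hident : ∀ i, IdentDistrib (X i) (X 0) μ μ := fun i =>
    ⟨(hmeas i).aemeasurable, (hmeas 0).aemeasurable, by rw [hmap, hmap]⟩
  have hmean : ∀ n, ∫ ω, X n ω ∂μ = lam := by
    intro n
    have h1 := (measurePreserving_eval_infinitePi (fun _ : Fin d → ℤ => ν) (fun _ => (n : ℤ)))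
    have h2 := integral_map (μ := μ) (φ := X n) (hmeas n).aemeasurable
      (f := fun y : ℝ => y) (measurable_id.aestronglyMeasurable)
    have h3 := integral_map (μ := ν) (φ := fun k : ℕ => (k : ℝ))
      (Measurable.of_discrete).aemeasurable
      (f := fun y : ℝ => y) (measurable_id.aestronglyMeasurable)
    rw [← h2, hmap, h3]
  have hslln := strong_law_Lp (μ := μ) (p := 1) le_rfl (by simp) X
    (memLp_one_iff_integrable.2 (hXint 0)) hind hident
  have hshift : ∀ n, ∫ ω in NP d, X n ω ∂μ = ∫ ω in NP d, (ω 0 : ℝ) ∂μ := by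
    intro n
    have h1 := int_run_shift (ν := ν) 0 (fun _ : Fin d => (n : ℤ)) (fun z => (z : ℝ))
    have h2 : ∀ (ω : (Fin d → ℤ) → ℕ) (x : Fin d → ℤ),
        ((run (cf ω) 0 x : ℤ) : ℝ) = (ω x : ℝ) := by
      intro ω x
      rw [run_zero]
      unfold cf
      push_cast
      rfl
    simp_rw [h2] at h1
    exact h1
  have hbound : ∀ n : ℕ, 1 ≤ n → ENNReal.ofReal
      |∫ ω in NP d, (ω 0 : ℝ) ∂μ - lam * μ.real (NP d)| ≤
      eLpNorm (fun ω => (n : ℝ)⁻¹ • (∑ i ∈ Finset.range n, X i ω) - ∫ ω, X 0 ω ∂μ) 1 μ := by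
    intro n hn
    have hn' : (n : ℝ) ≠ 0 := by positivity
    have hA : Integrable (fun ω => (n : ℝ)⁻¹ • (∑ i ∈ Finset.range n, X i ω)) μ :=
      (integrable_finset_sum (Finset.range n) fun i _ => hXint i).const_mul ((n : ℝ)⁻¹)
    have h1 : ∫ ω in NP d, ((n : ℝ)⁻¹ • (∑ i ∈ Finset.range n, X i ω) - ∫ ω, X 0 ω ∂μ) ∂μ
        = ∫ ω in NP d, (ω 0 : ℝ) ∂μ - lam * μ.real (NP d) := by
      rw [integral_sub hA.restrict
        (integrable_const _), integral_smul, integral_finset_sum _ fun i _ => (hXint i).restrict]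
      simp_rw [hshift]
      rw [hmean 0, Finset.sum_const, Finset.card_range, setIntegral_const]
      simp only [smul_eq_mul, nsmul_eq_mul]
      field_simp
    rw [← h1, eLpNorm_one_eq_lintegral_enorm]
    calc ENNReal.ofReal |∫ ω in NP d, ((n : ℝ)⁻¹ • (∑ i ∈ Finset.range n, X i ω)
          - ∫ ω, X 0 ω ∂μ) ∂μ|
        = ‖∫ ω in NP d, ((n : ℝ)⁻¹ • (∑ i ∈ Finset.range n, X i ω)
          - ∫ ω, X 0 ω ∂μ) ∂μ‖ₑ := by
          rw [← Real.norm_eq_abs, ofReal_norm]
      _ ≤ ∫⁻ ω in NP d, ‖(n : ℝ)⁻¹ • (∑ i ∈ Finset.range n, X i ω) - ∫ ω, X 0 ω ∂μ‖ₑ ∂μ :=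
          enorm_integral_le_lintegral_enorm _
      _ ≤ ∫⁻ ω, ‖(n : ℝ)⁻¹ • (∑ i ∈ Finset.range n, X i ω) - ∫ ω, X 0 ω ∂μ‖ₑ ∂μ :=
          setLIntegral_le_lintegral _ _
  have hzero : ENNReal.ofReal |∫ ω in NP d, (ω 0 : ℝ) ∂μ - lam * μ.real (NP d)| ≤ 0 :=
    ge_of_tendsto hslln (Filter.eventually_atTop.2 ⟨1, fun n hn => hbound n hn⟩)
  have h2 : |∫ ω in NP d, (ω 0 : ℝ) ∂μ - lam * μ.real (NP d)| ≤ 0 := by
    rw [nonpos_iff_eq_zero, ENNReal.ofReal_eq_zero] at hzero
    exact hzero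
  have h3 := abs_nonpos_iff.1 h2
  linarith

include hint in
lemma pos_tendsto :
    Tendsto (fun t : ℕ => ∫ ω in NP d, ((posp (2 * d - 1) (run (cf ω) t 0) : ℤ) : ℝ) ∂(fld d ν))
      atTop (𝓝 0) := by
  have h := tendsto_integral_of_dominated_convergence (μ := (fld d ν).restrict (NP d))
    (F := fun (t : ℕ) (ω : (Fin d → ℤ) → ℕ) => ((posp (2 * d - 1) (run (cf ω) t 0) : ℤ) : ℝ))
    (f := fun _ => (0 : ℝ)) (fun ω : (Fin d → ℤ) → ℕ => (ω 0 : ℝ) + (4 * (d : ℝ) + 1)) ?_ ?_ ?_ ?_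
  · simpa using h
  · intro t
    exact ((Measurable.of_discrete (f := fun z : ℤ => ((posp (2 * d - 1) z : ℤ) : ℝ))).comp
      (meas_run t 0)).aestronglyMeasurable
  · exact ((int_cf0 hint 0).add (integrable_const _)).restrict
  · intro t
    refine Filter.Eventually.of_forall fun ω => ?_
    have h2 := run_le (cf ω) t 0
    have h4 : (0 : ℤ) ≤ cf ω 0 := by unfold cf; positivity
    have h3 : posp (2 * d - 1) (run (cf ω) t 0) ≤ cf ω 0 + (4 * d + 1) := by
      unfold posp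
      omega
    have h1 : 0 ≤ posp (2 * d - 1) (run (cf ω) t 0) := le_max_left _ _
    rw [Real.norm_eq_abs, abs_of_nonneg (by exact_mod_cast h1)]
    have h5 : ((posp (2 * d - 1) (run (cf ω) t 0) : ℤ) : ℝ) ≤ ((cf ω 0 + (4 * d + 1) : ℤ) : ℝ) := by
      exact_mod_cast h3
    have h6 : ((cf ω 0 : ℤ) : ℝ) = (ω 0 : ℝ) := by simp [cf]
    push_cast at h5
    rw [h6] at h5
    exact h5
  · rw [ae_restrict_iff' meas_NP]
    refine Filter.Eventually.of_forall fun ω hω => ?_
    obtain ⟨T, hT⟩ := fin_all hω 0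
    apply tendsto_const_nhds.congr'
    filter_upwards [Filter.eventually_ge_atTop T] with t ht
    have h1 := hT t ht
    have h2 : posp (2 * d - 1) (run (cf ω) t 0) = 0 := by
      unfold posp
      omega
    rw [h2]
    simp

end Pool.Agent.Helper581.Sand
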