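import Pool.Agent.Helper581.Sand.Pois

set_option autoImplicit false

namespace Pool.Agent.Helper581.Sand

open MeasureTheory ProbabilityTheory Filter Topology
open scoped Nat

lemma exp_le_pow {x : ℝ} (n : ℕ) (hn : 0 < n) (hx : x < n) :
    Real.exp x ≤ (1 / (1 - x / n)) ^ n := by
  have hn' : (0 : ℝ) < n := by exact_mod_cast hn
  have h1 : 0 < 1 - x / n := by
    have : x / n < 1 := by rw [div_lt_one hn']; exact hx
    linarith
  have h2 : Real.exp (x / n) ≤ 1 / (1 - x / n) := by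
    rw [le_div_iff₀ h1]
    have h3 := Real.add_one_le_exp (-(x / n))
    have h4 : 1 - x / n ≤ Real.exp (-(x / n)) := by linarith
    calc Real.exp (x / n) * (1 - x / n) ≤ Real.exp (x / n) * Real.exp (-(x / n)) :=
          mul_le_mul_of_nonneg_left h4 (Real.exp_pos _).le
      _ = 1 := by rw [← Real.exp_add]; simp
  calc Real.exp x = (Real.exp (x / n)) ^ n := by
        rw [← Real.exp_nat_mul]
        congr 1
        field_simp
    _ ≤ _ := pow_le_pow_left₀ (Real.exp_pos _).le h2 n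

lemma exp_neg_two : Real.exp (-2) ≤ 0.13534 := by
  have h1 := Real.exp_one_gt_d9
  have h2 : Real.exp (-2) = 1 / (Real.exp 1) ^ 2 := by
    rw [one_div, ← Real.exp_nat_mul, ← Real.exp_neg]
    norm_num
  rw [h2, div_le_iff₀ (by positivity)]
  nlinarith

/-- the numerical condition with `θ = 2` -/
lemma cond_two {κ Ps E P : ℝ} (hE : Real.exp (2 * κ) ≤ E) (hP : Ps ≤ P) (hPs : 0 ≤ Ps)
    (h : E * 1.15653 * P < 1) : Real.exp (2 * κ) / (1 - Real.exp (-2)) * Ps < 1 := by
  have h1 := exp_neg_two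
  have h2 : (0.86466 : ℝ) ≤ 1 - Real.exp (-2) := by linarith
  have h3 : Real.exp (2 * κ) / (1 - Real.exp (-2)) ≤ E * 1.15653 := by
    rw [div_le_iff₀ (by linarith)]
    have hE0 : 0 < E := (Real.exp_pos _).trans_le hE
    nlinarith
  have hE0 : 0 < E := (Real.exp_pos _).trans_le hE
  calc _ ≤ E * 1.15653 * P := mul_le_mul h3 hP hPs (by positivity)
    _ < 1 := h

/-- the numerical condition with `θ = 1 / κ` -/
lemma cond_inv {κ Ps : ℝ} (hκ : 0 < κ) (hPs : 0 ≤ Ps) (h : 2.7183 * (κ + 1) * Ps < 1) :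
    Real.exp (1 / κ * κ) / (1 - Real.exp (-(1 / κ))) * Ps < 1 := by
  have h0 : 1 / κ * κ = 1 := by field_simp
  rw [h0]
  have h1 := Real.exp_one_lt_d9
  have h2 : κ / κ ≤ (1 - Real.exp (-(1 / κ))) * (κ + 1) := by
    have h3 := Real.add_one_le_exp (1 / κ)
    have h4 : Real.exp (-(1 / κ)) * (1 / κ + 1) ≤ 1 := by
      calc Real.exp (-(1 / κ)) * (1 / κ + 1) ≤ Real.exp (-(1 / κ)) * Real.exp (1 / κ) :=
            mul_le_mul_of_nonneg_left h3 (Real.exp_pos _).le
        _ = 1 := by rw [← Real.exp_add]; simp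
    have h5 : Real.exp (-(1 / κ)) * (κ + 1) ≤ κ := by
      have h6 : Real.exp (-(1 / κ)) * (κ + 1) = κ * (Real.exp (-(1 / κ)) * (1 / κ + 1)) := by
        field_simp
        ring
      rw [h6]
      nlinarith
    rw [div_self hκ.ne']
    nlinarith
  rw [div_self hκ.ne'] at h2
  have h3 : 0 < 1 - Real.exp (-(1 / κ)) := by
    have : Real.exp (-(1 / κ)) < 1 := by
      rw [Real.exp_lt_one_iff]
      have : 0 < 1 / κ := by positivity
      linarith
    linarith
  have h4 : Real.exp 1 / (1 - Real.exp (-(1 / κ))) ≤ 2.7183 * (κ + 1) := by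
    rw [div_le_iff₀ h3]
    nlinarith
  calc _ ≤ 2.7183 * (κ + 1) * Ps := mul_le_mul_of_nonneg_right h4 hPs
    _ < 1 := h

/-- upper bound for the sampled sum -/
lemma Ps_le {d m : ℕ} {l p : ℝ} (hd : 1 ≤ d) (hl : 1 ≤ l) (hm : (m : ℝ) ≤ l) (hm0 : 0 < m)
    (hp0 : 0 < p) (hp : 1 ≤ p ^ 2 * (6.28 * m)) :
    (1 + ((d : ℝ) - 1) * (2 * pw l ⌊l⌋₊)) / d ≤ (1 + ((d : ℝ) - 1) * (2 * p)) / d := by
  have hd' : (1 : ℝ) ≤ d := by exact_mod_cast hd
  have h1 := pw_floor_le hl
  have hmf : m ≤ ⌊l⌋₊ := Nat.le_floor hm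
  have hmf' : (m : ℝ) ≤ ⌊l⌋₊ := by exact_mod_cast hmf
  have hm0' : (0 : ℝ) < m := by exact_mod_cast hm0
  have h2 : 1 / √(2 * Real.pi * ⌊l⌋₊) ≤ p := by
    have hfl : (0 : ℝ) < ⌊l⌋₊ := lt_of_lt_of_le hm0' hmf'
    have h3 : 0 < √(2 * Real.pi * ⌊l⌋₊) := Real.sqrt_pos.2 (by positivity)
    rw [div_le_iff₀ h3]
    have h4 : (1 / p) ≤ √(2 * Real.pi * ⌊l⌋₊) := by
      apply Real.le_sqrt_of_sq_le
      rw [div_pow, one_pow, div_le_iff₀ (by positivity)]
      have h5 := Real.pi_gt_d2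
      calc 1 ≤ p ^ 2 * (6.28 * m) := hp
        _ ≤ p ^ 2 * (2 * Real.pi * ⌊l⌋₊) := by
          apply mul_le_mul_of_nonneg_left _ (by positivity)
          apply mul_le_mul (by linarith) hmf' hm0'.le (by positivity)
        _ = _ := by ring
    calc 1 = p * (1 / p) := by field_simp
      _ ≤ _ := mul_le_mul_of_nonneg_left h4 hp0.le
  apply div_le_div_of_nonneg_right _ (by positivity)
  have h3 : pw l ⌊l⌋₊ ≤ p := h1.trans h2
  nlinarith

/-- The bound for all `d ≥ 3`. -/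
theorem bound_three {d : ℕ} (hd : 3 ≤ d) :
    ∃ l : ℝ, 0 < l ∧ l ≤ 2 * (d : ℝ) - 1 - √d / 12 ∧
      poissonField d l.toNNReal {ω | Percolates fun x => (ω x : ℤ)} = 1 := by
  set y : ℝ := √d with hy
  have hd' : (3 : ℝ) ≤ d := by exact_mod_cast hd
  have hy2 : y ^ 2 = d := Real.sq_sqrt (by positivity)
  have hy1 : 1.732 ≤ y := by
    rw [hy]
    apply Real.le_sqrt_of_sq_le
    norm_num
    linarith
  have hypos : 0 < y := by linarith
  set l : ℝ := 2 * (d : ℝ) - 1 - y / 12 with hl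
  have hl1 : 1 ≤ l := by
    rw [hl, ← hy2]
    nlinarith
  have hcoe : ((l.toNNReal : NNReal) : ℝ) = l := Real.coe_toNNReal l (by linarith)
  set Ps : ℝ := (1 + ((d : ℝ) - 1) * (2 * pw l ⌊l⌋₊)) / d with hPs
  have hsum : ∀ J, ∑ j ∈ Finset.range J, wmax (l.toNNReal : NNReal) d j ≤ Ps := by
    intro J
    have := wmax_sum_le l.toNNReal (d := d) (by omega) J
    rw [hcoe] at this ⊢
    exact this
  have hPs0 : 0 ≤ Ps := by
    have := pw_nonneg (l := l) (by linarith) ⌊l⌋₊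
    rw [hPs]
    apply div_nonneg _ (by linarith)
    nlinarith
  refine ⟨l, by linarith, le_rfl, ?_⟩
  have hκ : 0 < y / 11 := by positivity
  have hκ2 : (2 * d - 1 : ℝ) - (l.toNNReal : NNReal) < y / 11 := by
    rw [hcoe, hl]
    linarith
  by_cases h16 : 16 ≤ d
  · have h16' : (16 : ℝ) ≤ d := by exact_mod_cast h16
    have hy4 : 4 ≤ y := by
      rw [hy]
      apply Real.le_sqrt_of_sq_le
      norm_num
      linarith
    refine pois_perc (by omega) _ Ps (y / 11) (1 / (y / 11)) hsum hκ hκ2 (by positivity)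
      (cond_inv hκ hPs0 ?_)
    -- the bound for `Ps`
    have hm : ((⌊1.85 * y ^ 2⌋₊ : ℕ) : ℝ) ≤ l := by
      refine (Nat.floor_le (by positivity)).trans ?_
      rw [hl, ← hy2]
      nlinarith
    have hmlow : 1.85 * y ^ 2 - 1 < (⌊1.85 * y ^ 2⌋₊ : ℕ) := by
      have := Nat.lt_floor_add_one (1.85 * y ^ 2)
      linarith
    have hp : 1 ≤ (0.2985 / y) ^ 2 * (6.28 * ((⌊1.85 * y ^ 2⌋₊ : ℕ) : ℝ)) := by
      rw [div_pow, div_mul_eq_mul_div, le_div_iff₀ (by positivity)]
      nlinarith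
    have h1 := Ps_le (d := d) (l := l) (p := 0.2985 / y) (by omega) hl1 hm
      (by
        rw [Nat.floor_pos]
        nlinarith) (by positivity) hp
    have h2 : (1 + ((d : ℝ) - 1) * (2 * (0.2985 / y))) / d ≤ 1 / y ^ 2 + 0.597 / y := by
      rw [← hy2]
      have : (1 + (y ^ 2 - 1) * (2 * (0.2985 / y))) / y ^ 2
          = 1 / y ^ 2 + 0.597 / y - 0.597 / y ^ 3 := by
        field_simp
        ring
      rw [this]
      have : 0 < 0.597 / y ^ 3 := by positivity
      linarith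
    have h3 : Ps ≤ 1 / y ^ 2 + 0.597 / y := h1.trans h2
    have hz : 1 / y ≤ 1 / 4 := one_div_le_one_div_of_le (by norm_num) hy4
    have hz0 : 0 < 1 / y := by positivity
    calc 2.7183 * (y / 11 + 1) * Ps ≤ 2.7183 * (y / 11 + 1) * (1 / y ^ 2 + 0.597 / y) :=
          mul_le_mul_of_nonneg_left h3 (by positivity)
      _ = 2.7183 * (1 / 11 * (1 / y) + 0.597 / 11 + (1 / y) ^ 2 + 0.597 * (1 / y)) := by
          field_simp
          ring
      _ < 1 := by nlinarith
  · push Not at h16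
    have key : ∀ (m : ℕ) (p E P : ℝ), (m : ℝ) ≤ l → 0 < m → 0 < p → 1 ≤ p ^ 2 * (6.28 * m) →
        (1 + ((d : ℝ) - 1) * (2 * p)) / d ≤ P → Real.exp (2 * (y / 11)) ≤ E →
        E * 1.15653 * P < 1 →
        poissonField d l.toNNReal {ω | Percolates fun x => (ω x : ℤ)} = 1 := by
      intro m p E P hm hm0 hp0 hp hP hE hlt
      refine pois_perc (by omega) _ Ps (y / 11) 2 hsum hκ hκ2 (by norm_num) ?_
      exact cond_two hE ((Ps_le (by omega) hl1 hm hm0 hp0 hp).trans hP) hPs0 hlt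
    have hylt4 : y < 4 := by
      rw [hy, Real.sqrt_lt' (by norm_num)]
      have : (d : ℝ) < 16 := by exact_mod_cast h16
      linarith
    by_cases h8 : 8 ≤ d
    · have h8' : (8 : ℝ) ≤ d := by exact_mod_cast h8
      have hEx : Real.exp (2 * (y / 11)) ≤ (1 / (1 - (8 / 11) / 4)) ^ 4 := by
        refine (Real.exp_le_exp.2 (by linarith : 2 * (y / 11) ≤ 8 / 11)).trans ?_
        exact exp_le_pow 4 (by norm_num) (by norm_num)
      refine key 14 0.1067 _ 0.3118 (by rw [hl]; push_cast; linarith) (by norm_num) (by norm_num)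
        (by norm_num) ?_ hEx (by norm_num)
      rw [div_le_iff₀ (by linarith)]
      linarith
    · push Not at h8
      have h7' : (d : ℝ) ≤ 7 := by
        have : d ≤ 7 := by omega
        exact_mod_cast this
      have hy7 : y ≤ 2.6458 := by
        rw [hy, Real.sqrt_le_left (by norm_num)]
        norm_num
        linarith
      by_cases h4 : 4 ≤ d
      · have h4' : (4 : ℝ) ≤ d := by exact_mod_cast h4
        have hEx : Real.exp (2 * (y / 11)) ≤ (1 / (1 - 0.48106 / 8)) ^ 8 := by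
          refine (Real.exp_le_exp.2 (by linarith : 2 * (y / 11) ≤ 0.48106)).trans ?_
          exact exp_le_pow 8 (by norm_num) (by norm_num)
        refine key 6 0.16292 _ 0.49439 (by rw [hl]; push_cast; linarith) (by norm_num)
          (by norm_num) (by norm_num) ?_ hEx (by norm_num)
        rw [div_le_iff₀ (by linarith)]
        linarith
      · have hd3 : d = 3 := by omega
        have hd3' : (d : ℝ) = 3 := by rw [hd3]; norm_num
        have hy3 : y ≤ 1.73206 := by
          rw [hy, Real.sqrt_le_left (by norm_num), hd3']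
          norm_num
        have hEx : Real.exp (2 * (y / 11)) ≤ (1 / (1 - 0.31493 / 4)) ^ 4 := by
          refine (Real.exp_le_exp.2 (by linarith : 2 * (y / 11) ≤ 0.31493)).trans ?_
          exact exp_le_pow 4 (by norm_num) (by norm_num)
        refine key 4 0.19953 _ 0.5994 (by rw [hl, hd3']; push_cast; linarith) (by norm_num)
          (by norm_num) (by norm_num) ?_ hEx (by norm_num)
        rw [hd3', div_le_iff₀ (by norm_num)]
        norm_num

/-- The better bound for large `d`. -/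
theorem bound_large {d : ℕ} (hd : 400 ≤ d) :
    ∃ l : ℝ, 0 < l ∧ l ≤ 2 * (d : ℝ) - 1 - √d / 2 ∧
      poissonField d l.toNNReal {ω | Percolates fun x => (ω x : ℤ)} = 1 := by
  set y : ℝ := √d with hy
  have hd' : (400 : ℝ) ≤ d := by exact_mod_cast hd
  have hy2 : y ^ 2 = d := Real.sq_sqrt (by positivity)
  have hy20 : 20 ≤ y := by
    rw [hy]
    apply Real.le_sqrt_of_sq_le
    norm_num
    linarith
  have hypos : 0 < y := by linarith
  set l : ℝ := 2 * (d : ℝ) - 1 - y / 2 with hl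
  have hl1 : 1 ≤ l := by
    rw [hl, ← hy2]
    nlinarith
  have hcoe : ((l.toNNReal : NNReal) : ℝ) = l := Real.coe_toNNReal l (by linarith)
  set Ps : ℝ := (1 + ((d : ℝ) - 1) * (2 * pw l ⌊l⌋₊)) / d with hPs
  have hsum : ∀ J, ∑ j ∈ Finset.range J, wmax (l.toNNReal : NNReal) d j ≤ Ps := by
    intro J
    have := wmax_sum_le l.toNNReal (d := d) (by omega) J
    rw [hcoe] at this ⊢
    exact this
  have hPs0 : 0 ≤ Ps := by
    have := pw_nonneg (l := l) (by linarith) ⌊l⌋₊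
    rw [hPs]
    apply div_nonneg _ (by linarith)
    nlinarith
  refine ⟨l, by linarith, le_rfl, ?_⟩
  have hκ : 0 < 0.51 * y := by positivity
  have hκ2 : (2 * d - 1 : ℝ) - (l.toNNReal : NNReal) < 0.51 * y := by
    rw [hcoe, hl]
    linarith
  refine pois_perc (by omega) _ Ps (0.51 * y) (1 / (0.51 * y)) hsum hκ hκ2 (by positivity)
    (cond_inv hκ hPs0 ?_)
  have hm : ((⌊1.97 * y ^ 2⌋₊ : ℕ) : ℝ) ≤ l := by
    refine (Nat.floor_le (by positivity)).trans ?_
    rw [hl, ← hy2]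
    nlinarith
  have hmlow : 1.97 * y ^ 2 - 1 < (⌊1.97 * y ^ 2⌋₊ : ℕ) := by
    have := Nat.lt_floor_add_one (1.97 * y ^ 2)
    linarith
  have hp : 1 ≤ (0.285 / y) ^ 2 * (6.28 * ((⌊1.97 * y ^ 2⌋₊ : ℕ) : ℝ)) := by
    rw [div_pow, div_mul_eq_mul_div, le_div_iff₀ (by positivity)]
    nlinarith
  have h1 := Ps_le (d := d) (l := l) (p := 0.285 / y) (by omega) hl1 hm
    (by
      rw [Nat.floor_pos]
      nlinarith) (by positivity) hp
  have h2 : (1 + ((d : ℝ) - 1) * (2 * (0.285 / y))) / d ≤ 1 / y ^ 2 + 0.57 / y := by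
    rw [← hy2]
    have : (1 + (y ^ 2 - 1) * (2 * (0.285 / y))) / y ^ 2
        = 1 / y ^ 2 + 0.57 / y - 0.57 / y ^ 3 := by
      field_simp
      ring
    rw [this]
    have : 0 < 0.57 / y ^ 3 := by positivity
    linarith
  have h3 : Ps ≤ 1 / y ^ 2 + 0.57 / y := h1.trans h2
  have hz : 1 / y ≤ 1 / 20 := one_div_le_one_div_of_le (by norm_num) hy20
  have hz0 : 0 < 1 / y := by positivity
  calc 2.7183 * (0.51 * y + 1) * Ps ≤ 2.7183 * (0.51 * y + 1) * (1 / y ^ 2 + 0.57 / y) :=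
        mul_le_mul_of_nonneg_left h3 (by positivity)
    _ = 2.7183 * (0.51 * (1 / y) + 0.51 * 0.57 + (1 / y) ^ 2 + 0.57 * (1 / y)) := by
        field_simp
        ring
    _ < 1 := by nlinarith

end Pool.Agent.Helper581.Sand
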