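import Pool.Agent.Helper581.Sand.Core

set_option autoImplicit false

namespace Pool.Agent.Helper581.Sand

open MeasureTheory ProbabilityTheory Filter Topology
open scoped Nat

/-- the Poisson weights -/
noncomputable def pw (l : ℝ) (k : ℕ) : ℝ := Real.exp (-l) * l ^ k / k !

lemma pw_nonneg {l : ℝ} (hl : 0 ≤ l) (k : ℕ) : 0 ≤ pw l k := by
  unfold pw
  positivity

lemma pw_succ (l : ℝ) (k : ℕ) : pw l (k + 1) = pw l k * (l / (k + 1)) := by
  unfold pw
  rw [Nat.factorial_succ, pow_succ]
  push_cast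
  have h1 : (k ! : ℝ) ≠ 0 := by positivity
  have h2 : ((k : ℝ) + 1) ≠ 0 := by positivity
  field_simp

lemma pw_real (l : NNReal) (k : ℕ) : (poissonMeasure l).real {k} = pw l k :=
  poissonMeasure_real_singleton l k

lemma hasSum_pw (l : NNReal) : HasSum (fun k => pw l k) 1 := hasSum_one_poissonMeasure l

lemma sum_pw_le (l : NNReal) (n : ℕ) : ∑ k ∈ Finset.range n, pw l k ≤ 1 := by
  have h := (hasSum_pw l).summable.sum_le_tsum (Finset.range n)
    (fun k _ => pw_nonneg l.coe_nonneg k)
  rwa [(hasSum_pw l).tsum_eq] at h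

lemma hasSum_mean (l : NNReal) : HasSum (fun k : ℕ => pw l k * (k : ℝ)) l := by
  have h1 : HasSum (fun k : ℕ => pw l (k + 1) * ((k + 1 : ℕ) : ℝ)) (l : ℝ) := by
    have h2 := (hasSum_pw l).mul_right (l : ℝ)
    rw [one_mul] at h2
    have h3 : (fun k : ℕ => pw l (k + 1) * ((k + 1 : ℕ) : ℝ)) = fun k : ℕ => pw l k * (l : ℝ) := by
      funext k
      rw [pw_succ]
      push_cast
      have : ((k : ℝ) + 1) ≠ 0 := by positivity
      field_simp
    rw [h3]
    exact h2
  have h3 := (hasSum_nat_add_iff (f := fun k : ℕ => pw l k * (k : ℝ)) 1).1 h1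
  simpa using h3

lemma pois_integrable (l : NNReal) : Integrable (fun n : ℕ => (n : ℝ)) (poissonMeasure l) := by
  rw [integrable_poissonMeasure_iff]
  have h := (hasSum_mean l).summable
  refine h.congr fun k => ?_
  unfold pw
  simp

lemma pois_mean (l : NNReal) : ∫ n, (n : ℝ) ∂(poissonMeasure l) = l := by
  rw [integral_poissonMeasure]
  exact (hasSum_mean l).tsum_eq

/-- ratio form of unimodality -/
lemma pw_le_succ {l : ℝ} (hl : 0 ≤ l) {k : ℕ} (h : (k : ℝ) + 1 ≤ l) : pw l k ≤ pw l (k + 1) := by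
  rw [pw_succ]
  have h1 : 1 ≤ l / (k + 1) := by
    rw [le_div_iff₀ (by positivity)]
    linarith
  nlinarith [pw_nonneg hl k]

lemma pw_succ_le {l : ℝ} (hl : 0 ≤ l) {k : ℕ} (h : l ≤ (k : ℝ) + 1) : pw l (k + 1) ≤ pw l k := by
  rw [pw_succ]
  have h1 : l / (k + 1) ≤ 1 := by
    rw [div_le_one (by positivity)]
    exact h
  nlinarith [pw_nonneg hl k]

lemma tv_le {l : ℝ} (hl : 0 ≤ l) (n : ℕ) :
    ∑ k ∈ Finset.range n, |pw l (k + 1) - pw l k| ≤ 2 * pw l ⌊l⌋₊ := by
  set m := ⌊l⌋₊ with hm
  have hml : (m : ℝ) ≤ l := Nat.floor_le hl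
  have hml' : l < m + 1 := Nat.lt_floor_add_one l
  set Ψ : ℕ → ℝ := fun k => if k ≤ m then pw l k else 2 * pw l m - pw l k with hΨ
  have hstep : ∀ k, |pw l (k + 1) - pw l k| = Ψ (k + 1) - Ψ k := by
    intro k
    by_cases h : k + 1 ≤ m
    · have h1 : k ≤ m := by omega
      have h2 : (k : ℝ) + 1 ≤ l := le_trans (by exact_mod_cast h) hml
      simp only [hΨ, h, h1, if_true]
      rw [abs_of_nonneg]
      linarith [pw_le_succ hl h2]
    · have h3 : m ≤ k := by omega
      have h2 : l ≤ (k : ℝ) + 1 := by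
        have : (m : ℝ) ≤ k := by exact_mod_cast h3
        linarith
      rw [abs_of_nonpos (by linarith [pw_succ_le hl h2])]
      by_cases h1 : k ≤ m
      · have h4 : k = m := by omega
        simp only [hΨ, h, h1, if_true, if_false]
        rw [h4]
        ring
      · simp only [hΨ, h, h1, if_false]
        ring
  simp_rw [hstep]
  rw [Finset.sum_range_sub]
  have h0 : 0 ≤ Ψ 0 := by
    simp only [hΨ, Nat.zero_le, if_true]
    exact pw_nonneg hl 0
  have hn : Ψ n ≤ 2 * pw l m := by
    simp only [hΨ]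
    have hp := pw_nonneg hl n
    have hpm := pw_nonneg hl m
    split_ifs with h
    · have hmono : ∀ j, n + j ≤ m → pw l n ≤ pw l (n + j) := by
        intro j
        induction j with
        | zero => intro _; exact le_rfl
        | succ j ih =>
          intro hj
          refine (ih (by omega)).trans (pw_le_succ hl ?_)
          refine le_trans ?_ hml
          exact_mod_cast hj
      have := hmono (m - n) (by omega)
      rw [show n + (m - n) = m by omega] at this
      linarith
    · linarith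
  linarith

lemma pw_floor_le {l : ℝ} (hl : 1 ≤ l) : pw l ⌊l⌋₊ ≤ 1 / √(2 * Real.pi * ⌊l⌋₊) := by
  set m := ⌊l⌋₊ with hm
  have hm1 : 1 ≤ m := Nat.one_le_floor_iff l |>.2 hl
  have hmpos : (0 : ℝ) < m := by exact_mod_cast hm1
  have hst := Stirling.le_factorial_stirling m
  have hsq : 0 < √(2 * Real.pi * m) := Real.sqrt_pos.2 (by positivity)
  have h1 : (l / m) ^ m ≤ Real.exp (l - m) := by
    have h2 : l / m ≤ Real.exp (l / m - 1) := by
      have := Real.add_one_le_exp (l / m - 1)
      linarith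
    calc (l / m) ^ m ≤ (Real.exp (l / m - 1)) ^ m := pow_le_pow_left₀ (by positivity) h2 m
      _ = Real.exp (l - m) := by
        rw [← Real.exp_nat_mul]
        congr 1
        field_simp
  unfold pw
  rw [div_le_div_iff₀ (by positivity) hsq, one_mul]
  calc Real.exp (-l) * l ^ m * √(2 * Real.pi * m)
      = Real.exp (-l) * (l / m) ^ m * (m : ℝ) ^ m * √(2 * Real.pi * m) := by
        rw [div_pow]
        field_simp
    _ ≤ Real.exp (-l) * Real.exp (l - m) * (m : ℝ) ^ m * √(2 * Real.pi * m) := by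
        gcongr
    _ = √(2 * Real.pi * m) * (m / Real.exp 1) ^ m := by
        rw [← Real.exp_add, div_pow, ← Real.exp_nat_mul]
        have : Real.exp (-l + (l - m)) = 1 / Real.exp ((m : ℝ) * 1) := by
          rw [one_div, ← Real.exp_neg]
          congr 1
          ring
        rw [this]
        ring
    _ ≤ m ! := hst

/-- the maximum of the weights over the window `[j d, (j + 1) d)` -/
noncomputable def wmax (l : ℝ) (d j : ℕ) : ℝ := if h : 0 < d then
  (Finset.range d).sup' ⟨0, Finset.mem_range.2 h⟩ (fun i => pw l (j * d + i)) else 0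

lemma wmax_ge {l : ℝ} {d : ℕ} (hd : 0 < d) (k : ℕ) : pw l k ≤ wmax l d (k / d) := by
  unfold wmax
  rw [dif_pos hd]
  have h1 : k % d ∈ Finset.range d := Finset.mem_range.2 (Nat.mod_lt _ hd)
  have h2 : pw l (k / d * d + k % d) ≤ (Finset.range d).sup' ⟨0, Finset.mem_range.2 hd⟩
      (fun i => pw l (k / d * d + i)) := Finset.le_sup' (fun i => pw l (k / d * d + i)) h1
  rwa [show k / d * d + k % d = k by rw [mul_comm]; exact Nat.div_add_mod k d] at h2

lemma wmax_nonneg {l : ℝ} (hl : 0 ≤ l) (d j : ℕ) : 0 ≤ wmax l d j := by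
  by_cases hd : 0 < d
  · have h := wmax_ge (l := l) hd (j * d)
    rw [Nat.mul_div_cancel _ hd] at h
    exact (pw_nonneg hl _).trans h
  · unfold wmax
    rw [dif_neg hd]

lemma wmax_le {l : ℝ} {d : ℕ} (hd : 0 < d) (j : ℕ) :
    d * wmax l d j ≤ ∑ i ∈ Finset.range d, pw l (j * d + i)
      + (d - 1) * ∑ i ∈ Finset.range d, |pw l (j * d + i + 1) - pw l (j * d + i)| := by
  classical
  have h0 : wmax l d j = (Finset.range d).sup' ⟨0, Finset.mem_range.2 hd⟩
      (fun i => pw l (j * d + i)) := by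
    unfold wmax
    rw [dif_pos hd]
  obtain ⟨a, ha, hamax⟩ := Finset.exists_mem_eq_sup' (s := Finset.range d)
    ⟨0, Finset.mem_range.2 hd⟩ (fun i => pw l (j * d + i))
  rw [h0, hamax]
  set TV : ℝ := ∑ i ∈ Finset.range d, |pw l (j * d + i + 1) - pw l (j * d + i)| with hTV
  have hord : ∀ x y, x ≤ y → y < d → |pw l (j * d + x) - pw l (j * d + y)| ≤ TV := by
    intro x y hxy hy
    have h1 := dist_le_Ico_sum_dist (fun i => pw l (j * d + i)) hxy
    rw [Real.dist_eq] at h1
    refine h1.trans ?_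
    rw [hTV]
    calc ∑ i ∈ Finset.Ico x y, dist (pw l (j * d + i)) (pw l (j * d + (i + 1)))
        = ∑ i ∈ Finset.Ico x y, |pw l (j * d + i + 1) - pw l (j * d + i)| := by
          apply Finset.sum_congr rfl
          intro i _
          rw [Real.dist_eq, abs_sub_comm]
          rfl
      _ ≤ _ := by
          apply Finset.sum_le_sum_of_subset_of_nonneg
          · intro i hi
            rw [Finset.mem_Ico] at hi
            rw [Finset.mem_range]
            omega
          · intro i _ _
            exact abs_nonneg _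
  have hall : ∀ i < d, pw l (j * d + a) ≤ pw l (j * d + i) + TV := by
    intro i hi
    rw [Finset.mem_range] at ha
    rcases le_total i a with h | h
    · have := hord i a h ha
      have := (abs_le.1 this).1
      linarith
    · have := hord a i h hi
      have := (abs_le.1 this).2
      linarith
  have h3 : ∑ i ∈ (Finset.range d).erase a, pw l (j * d + a)
      ≤ ∑ i ∈ (Finset.range d).erase a, (pw l (j * d + i) + TV) := by
    apply Finset.sum_le_sum
    intro i hi
    rw [Finset.mem_erase, Finset.mem_range] at hi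
    exact hall i hi.2
  rw [Finset.sum_const, Finset.sum_add_distrib, Finset.sum_const, Finset.card_erase_of_mem ha,
    Finset.card_range, nsmul_eq_mul, nsmul_eq_mul, Nat.cast_sub hd, Nat.cast_one] at h3
  have h4 : pw l (j * d + a) + ∑ i ∈ (Finset.range d).erase a, pw l (j * d + i)
      = ∑ i ∈ Finset.range d, pw l (j * d + i) :=
    Finset.add_sum_erase (Finset.range d) (fun i => pw l (j * d + i)) ha
  linarith

lemma block_sum (F : ℕ → ℝ) (d J : ℕ) :
    ∑ j ∈ Finset.range J, ∑ i ∈ Finset.range d, F (j * d + i) = ∑ k ∈ Finset.range (J * d), F k := by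
  induction J with
  | zero => simp
  | succ J ih =>
    rw [Finset.sum_range_succ, ih, Nat.succ_mul, Finset.sum_range_add]

lemma wmax_sum_le (l : NNReal) {d : ℕ} (hd : 0 < d) (J : ℕ) :
    ∑ j ∈ Finset.range J, wmax l d j ≤ (1 + (d - 1) * (2 * pw l ⌊(l : ℝ)⌋₊)) / d := by
  have hd' : (0 : ℝ) < d := by exact_mod_cast hd
  rw [le_div_iff₀ hd', mul_comm, Finset.mul_sum]
  have hd1 : (0 : ℝ) ≤ d - 1 := by
    have : (1 : ℝ) ≤ d := by exact_mod_cast hd
    linarith
  calc ∑ j ∈ Finset.range J, (d : ℝ) * wmax l d j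
      ≤ ∑ j ∈ Finset.range J, (∑ i ∈ Finset.range d, pw l (j * d + i)
      + (d - 1) * ∑ i ∈ Finset.range d, |pw l (j * d + i + 1) - pw l (j * d + i)|) :=
        Finset.sum_le_sum fun j _ => wmax_le hd j
    _ = ∑ k ∈ Finset.range (J * d), pw l k
      + (d - 1) * ∑ k ∈ Finset.range (J * d), |pw l (k + 1) - pw l k| := by
        rw [Finset.sum_add_distrib, ← Finset.mul_sum, block_sum,
          block_sum (fun k => |pw l (k + 1) - pw l k|)]
    _ ≤ 1 + (d - 1) * (2 * pw l ⌊(l : ℝ)⌋₊) :=
        add_le_add (sum_pw_le l _) (mul_le_mul_of_nonneg_left (tv_le l.coe_nonneg _) hd1)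

/-- Percolation from a numerical condition. -/
theorem pois_perc {d : ℕ} (hd : 1 ≤ d) (l : NNReal) (Ps κ θ : ℝ)
    (hPs : ∀ J, ∑ j ∈ Finset.range J, wmax l d j ≤ Ps) (hκ : 0 < κ)
    (hκ2 : (2 * d - 1 : ℝ) - l < κ) (hθ : 0 < θ)
    (hfin : Real.exp (θ * κ) / (1 - Real.exp (-θ)) * Ps < 1) :
    poissonField d l {ω | Percolates fun x => (ω x : ℤ)} = 1 := by
  have h := core (d := d) (ν := poissonMeasure l) hd (pois_integrable l) (fun k => k / d)
    (fun j => wmax l d j) Ps ?_ ?_ (fun j => wmax_nonneg l.coe_nonneg d j) hPs κ θ hκ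
    (by rw [pois_mean]; exact hκ2) hθ hfin
  · exact h
  · intro k k' hkk'
    have hkk : k / d = k' / d := hkk'
    have h1 := Nat.div_add_mod k d
    have h2 := Nat.div_add_mod k' d
    have h3 := Nat.mod_lt k hd
    have h4 := Nat.mod_lt k' hd
    rw [hkk] at h1
    omega
  · intro k
    rw [pw_real]
    exact wmax_ge hd k

lemma crit_le {d : ℕ} (l : ℝ) (hl : 0 < l)
    (h : poissonField d l.toNNReal {ω | Percolates fun x => (ω x : ℤ)} = 1) :
    criticalDensity d ≤ l := by
  unfold criticalDensity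
  apply csInf_le
  · exact ⟨0, fun x hx => hx.1.le⟩
  · exact ⟨hl, h⟩

end Pool.Agent.Helper581.Sand
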