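import Pool.Agent.Helper581.Sand.Num

set_option autoImplicit false

namespace Pool.Agent.Helper581.Sand

open MeasureTheory ProbabilityTheory Filter Topology
open scoped Nat

lemma wmax_two_le {l v : ℝ} (j : ℕ) (h0 : pw l (j * 2) ≤ v) (h1 : pw l (j * 2 + 1) ≤ v) :
    wmax l 2 j ≤ v := by
  unfold wmax
  rw [dif_pos (by norm_num)]
  apply Finset.sup'_le
  intro i hi
  rw [Finset.mem_range] at hi
  interval_cases i
  · simpa using h0
  · exact h1

lemma exp_285 : Real.exp (-(57 / 20)) ≤ 0.0582 := by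
  have h1 : Real.exp (-(57 / 20)) = Real.exp (-2) * Real.exp (-2) * Real.exp 1 *
      Real.exp (3 / 20) := by
    rw [← Real.exp_add, ← Real.exp_add, ← Real.exp_add]
    norm_num
  have h2 : Real.exp (-2) ≤ 0.1353353 := by
    have h1 := Real.exp_one_gt_d9
    have h2 : Real.exp (-2) = 1 / (Real.exp 1) ^ 2 := by
      rw [one_div, ← Real.exp_nat_mul, ← Real.exp_neg]
      norm_num
    rw [h2, div_le_iff₀ (by positivity)]
    nlinarith
  have h3 := Real.exp_one_lt_d9
  have h4 : Real.exp (3 / 20) ≤ (1 / (1 - (3 / 20) / 4)) ^ 4 := exp_le_pow 4 (by norm_num)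
    (by norm_num)
  rw [h1]
  calc Real.exp (-2) * Real.exp (-2) * Real.exp 1 * Real.exp (3 / 20)
      ≤ 0.1353353 * 0.1353353 * 2.7182818286 * (1 / (1 - (3 / 20) / 4)) ^ 4 := by
        apply mul_le_mul _ h4 (Real.exp_pos _).le (by norm_num)
        apply mul_le_mul _ h3.le (Real.exp_pos _).le (by norm_num)
        exact mul_le_mul h2 h2 (Real.exp_pos _).le (by norm_num)
    _ ≤ 0.0582 := by norm_num

lemma pw_285 (k : ℕ) : pw (57 / 20) k ≤ 0.0582 * (57 / 20) ^ k / k ! := by
  unfold pw
  apply div_le_div_of_nonneg_right _ (by positivity)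
  exact mul_le_mul_of_nonneg_right exp_285 (by positivity)

lemma sum_two (J : ℕ) : ∑ j ∈ Finset.range J, wmax (57 / 20) 2 j ≤ 0.6126 := by
  have hnn : ∀ j, 0 ≤ wmax (57 / 20) 2 j := fun j => wmax_nonneg (by norm_num) 2 j
  have h8 : ∀ j : ℕ, pw (57 / 20) (8 + j * 2) ≤ 0.0063 * (1 / 10) ^ j := by
    intro j
    induction j with
    | zero =>
      refine (pw_285 _).trans ?_
      norm_num [Nat.factorial]
    | succ j ih =>
      have e : 8 + (j + 1) * 2 = 8 + j * 2 + 1 + 1 := by ring
      rw [e, pw_succ, pw_succ, pow_succ]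
      have hp := pw_nonneg (l := 57 / 20) (by norm_num) (8 + j * 2)
      have h1 : (57 / 20 : ℝ) / (((8 + j * 2 : ℕ) : ℝ) + 1) ≤ (57 / 20) / 9 := by
        apply div_le_div_of_nonneg_left (by norm_num) (by norm_num)
        push_cast
        have : (0 : ℝ) ≤ j := Nat.cast_nonneg j
        linarith
      have h2 : (57 / 20 : ℝ) / (((8 + j * 2 + 1 : ℕ) : ℝ) + 1) ≤ (57 / 20) / 10 := by
        apply div_le_div_of_nonneg_left (by norm_num) (by norm_num)
        push_cast
        have : (0 : ℝ) ≤ j := Nat.cast_nonneg j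
        linarith
      calc pw (57 / 20) (8 + j * 2) * (57 / 20 / (((8 + j * 2 : ℕ) : ℝ) + 1)) *
            (57 / 20 / (((8 + j * 2 + 1 : ℕ) : ℝ) + 1))
          ≤ 0.0063 * (1 / 10) ^ j * ((57 / 20) / 9) * ((57 / 20) / 10) := by
            apply mul_le_mul _ h2 (by positivity) (by positivity)
            exact mul_le_mul ih h1 (by positivity) (by positivity)
        _ ≤ 0.0063 * ((1 / 10) ^ j * (1 / 10)) := by
            have : (0 : ℝ) < (1 / 10) ^ j := by positivity
            nlinarith
  have h9 : ∀ j : ℕ, pw (57 / 20) (8 + j * 2 + 1) ≤ pw (57 / 20) (8 + j * 2) := by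
    intro j
    apply pw_succ_le (by norm_num)
    push_cast
    have : (0 : ℝ) ≤ j := Nat.cast_nonneg j
    linarith
  have htail : ∀ j : ℕ, wmax (57 / 20) 2 (4 + j) ≤ 0.0063 * (1 / 10) ^ j := by
    intro j
    have e : (4 + j) * 2 = 8 + j * 2 := by ring
    apply wmax_two_le
    · rw [e]; exact h8 j
    · rw [e]; exact (h9 j).trans (h8 j)
  have h0 : wmax (57 / 20) 2 0 ≤ 0.16588 := wmax_two_le 0
    ((pw_285 _).trans (by norm_num [Nat.factorial])) ((pw_285 _).trans (by norm_num [Nat.factorial]))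
  have h1 : wmax (57 / 20) 2 1 ≤ 0.23637 := wmax_two_le 1
    ((pw_285 _).trans (by norm_num [Nat.factorial])) ((pw_285 _).trans (by norm_num [Nat.factorial]))
  have h2 : wmax (57 / 20) 2 2 ≤ 0.16 := wmax_two_le 2
    ((pw_285 _).trans (by norm_num [Nat.factorial])) ((pw_285 _).trans (by norm_num [Nat.factorial]))
  have h3 : wmax (57 / 20) 2 3 ≤ 0.04332 := wmax_two_le 3
    ((pw_285 _).trans (by norm_num [Nat.factorial])) ((pw_285 _).trans (by norm_num [Nat.factorial]))
  have hgeo : ∑ j ∈ Finset.range J, (0.0063 : ℝ) * (1 / 10) ^ j ≤ 0.007 := by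
    rw [← Finset.mul_sum]
    have h := (summable_geometric_of_lt_one (r := (1 / 10 : ℝ)) (by norm_num)
      (by norm_num)).sum_le_tsum (Finset.range J) (fun k _ => by positivity)
    rw [tsum_geometric_of_lt_one (by norm_num) (by norm_num)] at h
    norm_num at h ⊢
    linarith
  calc ∑ j ∈ Finset.range J, wmax (57 / 20) 2 j
      ≤ ∑ j ∈ Finset.range (4 + J), wmax (57 / 20) 2 j := by
        apply Finset.sum_le_sum_of_subset_of_nonneg
        · intro j hj
          rw [Finset.mem_range] at *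
          omega
        · intro j _ _
          exact hnn j
    _ = ∑ j ∈ Finset.range 4, wmax (57 / 20) 2 j
        + ∑ j ∈ Finset.range J, wmax (57 / 20) 2 (4 + j) := Finset.sum_range_add _ _ _
    _ ≤ (0.16588 + 0.23637 + 0.16 + 0.04332) + 0.007 := by
        apply add_le_add
        · simp only [Finset.sum_range_succ, Finset.range_zero, Finset.sum_empty]
          linarith
        · exact (Finset.sum_le_sum fun j _ => htail j).trans hgeo
    _ ≤ 0.6126 := by norm_num

/-- The bound in the plane. -/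
theorem bound_two :
    poissonField 2 (57 / 20 : ℝ).toNNReal {ω | Percolates fun x => (ω x : ℤ)} = 1 := by
  have hcoe : (((57 / 20 : ℝ).toNNReal : NNReal) : ℝ) = 57 / 20 :=
    Real.coe_toNNReal _ (by norm_num)
  refine pois_perc (by norm_num) _ 0.6126 0.16 2 ?_ (by norm_num) ?_ (by norm_num) ?_
  · intro J
    rw [hcoe]
    exact sum_two J
  · rw [hcoe]
    norm_num
  · have hE : Real.exp (2 * 0.16) ≤ (1 / (1 - 0.32 / 8)) ^ 8 := by
      have := exp_le_pow (x := 0.32) 8 (by norm_num) (by norm_num)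
      norm_num at this ⊢
      exact this
    exact cond_two hE le_rfl (by norm_num) (by norm_num)

end Pool.Agent.Helper581.Sand
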